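import Pool.Agent.Helper31.Berg.Geom

set_option autoImplicit false

open Set Filter Topology Metric Real Polynomial MeasureTheory

namespace Pool.Agent.Helper31.Berg

theorem integral_pow_ball {k : ℕ} (hk : k ≠ 0) (δ : ℝ) :
    ∫ z in ball (0 : ℂ) δ, z ^ k = 0 := by
  set ω : ℂ := Complex.exp ((π / k : ℝ) * Complex.I) with hω
  have hkc : (k : ℂ) ≠ 0 := by exact_mod_cast hk
  have hωn : ‖ω‖ = 1 := Complex.norm_exp_ofReal_mul_I _
  have hωk : ω ^ k = -1 := by
    rw [hω, ← Complex.exp_nat_mul, ← Complex.exp_pi_mul_I]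
    congr 1
    push_cast
    field_simp
  set ωc : Circle := Circle.exp (π / k) with hωc
  have hmp : MeasurePreserving (rotation ωc) (volume : Measure ℂ) volume :=
    LinearIsometryEquiv.measurePreserving _
  have hpre : (rotation ωc) ⁻¹' (ball (0 : ℂ) δ) = ball 0 δ := by
    ext z
    rw [mem_preimage, mem_ball_zero_iff, mem_ball_zero_iff, LinearIsometryEquiv.norm_map]
  have h1 := hmp.setIntegral_preimage_emb (rotation ωc).toHomeomorph.measurableEmbedding
    (fun z : ℂ => z ^ k) (ball (0 : ℂ) δ)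
  rw [hpre] at h1
  have h2 : ∀ z : ℂ, (rotation ωc z) ^ k = - z ^ k := by
    intro z
    rw [rotation_apply, mul_pow]
    have : ((ωc : ℂ)) = ω := Circle.coe_exp _
    rw [this, hωk]
    ring
  simp_rw [h2] at h1
  rw [integral_neg] at h1
  have h3 : (2 : ℂ) * ∫ z in ball (0 : ℂ) δ, z ^ k = 0 := by linear_combination -h1
  simpa using h3

theorem integral_poly_ball (Q : ℂ[X]) (δ : ℝ) :
    ∫ z in ball (0 : ℂ) δ, Q.eval z = (volume.real (ball (0 : ℂ) δ) : ℂ) * Q.eval 0 := by
  have hint : ∀ (f : ℂ → ℂ), Continuous f → IntegrableOn f (ball (0 : ℂ) δ) := fun f hf =>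
    (hf.continuousOn.integrableOn_compact (isCompact_closedBall (0 : ℂ) δ)).mono_set
      ball_subset_closedBall
  have h1 : ∀ z : ℂ, Q.eval z = ∑ i ∈ Finset.range (Q.natDegree + 1), Q.coeff i * z ^ i := fun z =>
    Q.eval_eq_sum_range z
  simp_rw [h1]
  rw [integral_finsetSum _ fun i _ => hint _ (by fun_prop)]
  rw [Finset.mul_sum]
  apply Finset.sum_congr rfl
  intro i _
  rw [integral_const_mul]
  rcases eq_or_ne i 0 with rfl | hi
  · simp only [pow_zero, mul_one]
    rw [setIntegral_const, Complex.real_smul, mul_one, mul_comm]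
  · rw [integral_pow_ball hi, zero_pow hi]
    ring

theorem integral_poly_ball' (Q : ℂ[X]) (a : ℂ) (δ : ℝ) :
    ∫ z in ball a δ, Q.eval z = (volume.real (ball (0 : ℂ) δ) : ℂ) * Q.eval a := by
  have h1 := integral_poly_ball (Q.comp (X + C a)) δ
  simp only [eval_comp, eval_add, eval_X, eval_C, zero_add] at h1
  rw [← h1]
  have hmp : MeasurePreserving (fun z : ℂ => z + a) (volume : Measure ℂ) volume :=
    measurePreserving_add_right volume a
  have h2 := hmp.setIntegral_preimage_emb (MeasurableEquiv.addRight a).measurableEmbedding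
    (fun z : ℂ => Q.eval z) (ball a δ)
  have hpre : (fun z : ℂ => z + a) ⁻¹' (ball a δ) = ball 0 δ := by
    ext z
    simp [dist_eq_norm]
  rw [hpre] at h2
  exact h2.symm

/-- the maximum of a polynomial on a shrunk body is controlled by its Bergman norm -/
theorem sup_le {G : Set ℂ} (h : Body G) {ρ : ℝ} (h0 : 0 ≤ ρ) (h1 : ρ < 1) :
    ∃ C : ℝ, 0 < C ∧ ∀ (P : ℂ[X]), ∀ z ∈ closure G,
      ‖P.eval ((ρ : ℂ) * z)‖ ^ 2 ≤ C * ∫ w in G, ‖P.eval w‖ ^ 2 := by
  obtain ⟨δ, hδ, hroom⟩ := h.exists_room h0 h1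
  have hv : 0 < volume.real (ball (0 : ℂ) δ) := by
    rw [measureReal_def]
    exact ENNReal.toReal_pos (measure_ball_pos _ _ hδ).ne' measure_ball_lt_top.ne
  refine ⟨(volume.real (ball (0 : ℂ) δ))⁻¹, inv_pos.2 hv, fun P z hz => ?_⟩
  have h2 := integral_poly_ball' (P ^ 2) ((ρ : ℂ) * z) δ
  simp only [eval_pow] at h2
  have h3 : volume.real (ball (0 : ℂ) δ) * ‖P.eval ((ρ : ℂ) * z)‖ ^ 2 ≤
      ∫ w in G, ‖P.eval w‖ ^ 2 := by
    calc volume.real (ball (0 : ℂ) δ) * ‖P.eval ((ρ : ℂ) * z)‖ ^ 2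
        = ‖∫ w in ball ((ρ : ℂ) * z) δ, P.eval w ^ 2‖ := by
          rw [h2, norm_mul, norm_pow, Complex.norm_real, Real.norm_of_nonneg hv.le]
      _ ≤ ∫ w in ball ((ρ : ℂ) * z) δ, ‖P.eval w ^ 2‖ := norm_integral_le_integral_norm _
      _ = ∫ w in ball ((ρ : ℂ) * z) δ, ‖P.eval w‖ ^ 2 := by simp_rw [norm_pow]
      _ ≤ ∫ w in G, ‖P.eval w‖ ^ 2 := by
          apply setIntegral_mono_set
          · exact ((P.continuous.norm.pow 2).continuousOn.integrableOn_compact
              h.isCompact_closure).mono_set subset_closure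
          · exact Eventually.of_forall fun w => by positivity
          · exact (hroom z hz).eventuallyLE
  rw [inv_mul_eq_div, le_div_iff₀ hv, mul_comm]
  exact h3

end Pool.Agent.Helper31.Berg
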