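import Pool.Agent.Helper31.Berg.Ext

set_option autoImplicit false

open Set Filter Topology Metric Real Polynomial

namespace Pool.Agent.Helper31.Berg

variable {G : Set ℂ} {φ : ℂ → ℂ} {c : ℝ}

/-- Bernstein-Walsh inequality, in a weak form -/
theorem bernstein_walsh (h : Body G) (e : IsExt G φ c) {r ρ : ℝ} (hr : 0 < r) (hrρ : r < ρ)
    (hρ : ρ ≤ 1) (P : ℂ[X]) {n : ℕ} (hn : P.natDegree ≤ n) {M : ℝ} 
    (hM : ∀ z ∈ closure G, ‖P.eval ((ρ : ℂ) * z)‖ ≤ M) {z : ℂ} (hz : 1 < ‖z‖) :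
    ‖P.eval z‖ ≤ M * ‖φ (z / r)‖ ^ n := by
  have hρ0 : 0 < ρ := hr.trans hrρ
  have hrc : (r : ℂ) ≠ 0 := by exact_mod_cast hr.ne'
  have hρc : (ρ : ℂ) ≠ 0 := by exact_mod_cast hρ0.ne'
  have hz0 : z ≠ 0 := by
    rintro rfl
    rw [norm_zero] at hz
    linarith
  set s : ℝ := r / ρ with hs
  have hs0 : 0 < s := by positivity
  have hs1 : s < 1 := (div_lt_one hρ0).2 hrρ
  have hsc : (s : ℂ) ≠ 0 := by exact_mod_cast hs0.ne'
  set U : Set ℂ := {u | u / s ∈ W G} with hU
  -- the polynomial `u ^ n * P (r / u)`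
  set Q : ℂ[X] := (P.comp (C (r : ℂ) * X)).reflect n with hQ
  have hdeg : (P.comp (C (r : ℂ) * X)).natDegree ≤ n := by
    refine (natDegree_comp_le).trans ?_
    have : (C (r : ℂ) * X : ℂ[X]).natDegree ≤ 1 := (natDegree_C_mul_le _ _).trans natDegree_X_le
    calc P.natDegree * (C (r : ℂ) * X : ℂ[X]).natDegree ≤ P.natDegree * 1 :=
          Nat.mul_le_mul_left _ this
      _ ≤ n := by simpa using hn
  have hQe : ∀ u : ℂ, u ≠ 0 → Q.eval u = u ^ n * P.eval (r / u) := by
    intro u hu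
    letI : Invertible u⁻¹ := invertibleOfNonzero (inv_ne_zero hu)
    have h1 := Polynomial.eval₂_reflect_mul_pow (RingHom.id ℂ) u⁻¹ n (P.comp (C (r : ℂ) * X)) hdeg
    rw [invOf_eq_inv, inv_inv] at h1
    simp only [eval₂_id, eval_comp, eval_mul, eval_C, eval_X] at h1
    rw [div_eq_mul_inv, ← h1, ← hQ, inv_pow, mul_comm, mul_assoc,
      inv_mul_cancel₀ (pow_ne_zero n hu), mul_one]
  set H : ℂ → ℂ := dslope (FF φ) 0 with hH
  have hHd : DifferentiableOn ℂ H (W G) :=
    (Complex.differentiableOn_dslope ((isOpen_W h).mem_nhds zero_mem_W)).2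
      (e.differentiableOn_FF h)
  have hHne : ∀ u, u ≠ 0 → H u = FF φ u / u := fun u hu => by
    rw [hH, dslope_of_ne _ hu, slope_def_field, FF_zero, sub_zero, sub_zero]
  set g : ℂ → ℂ := fun u => Q.eval u * H u ^ n with hg
  have hge : ∀ u : ℂ, u ≠ 0 → g u = P.eval (r / u) * FF φ u ^ n := by
    intro u hu
    simp only [hg]
    rw [hQe u hu, hHne u hu, div_pow]
    have := pow_ne_zero n hu
    field_simp
  have hgd : DifferentiableOn ℂ g (W G) :=
    Q.differentiable.differentiableOn.mul (hHd.pow n)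
  have hcont : Continuous fun u : ℂ => u / s := continuous_id.div_const _
  have hUo : IsOpen U := (isOpen_W h).preimage hcont
  have hclU : closure U ⊆ {u | u / s ∈ closure (W G)} := 
    closure_minimal (fun u hu => subset_closure hu) (isClosed_closure.preimage hcont)
  have hUW : closure U ⊆ W G := by
    intro u hu
    have h1 := smul_closure_W h hs0.le hs1 (hclU hu)
    rwa [mul_div_cancel₀ _ hsc] at h1
  have hUb : Bornology.IsBounded U := (isBounded_W h).subset (subset_closure.trans hUW)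
  have hdc : DiffContOnCl ℂ g U := by
    refine ⟨hgd.mono (subset_closure.trans hUW), hgd.continuousOn.mono hUW⟩
  have hfr : ∀ u ∈ frontier U, ‖g u‖ ≤ M := by
    intro u hu
    rw [hUo.frontier_eq] at hu
    have huW := hUW hu.1
    have hu0 : u ≠ 0 := by
      rintro rfl
      apply hu.2
      show (0 : ℂ) / s ∈ W G
      rw [zero_div]; exact zero_mem_W
    have hus : u / s ≠ 0 := div_ne_zero hu0 hsc
    have h1 : (u / s)⁻¹ ∈ closure G := by
      by_contra hcon
      exact hu.2 ((mem_W_of_ne hus).2 hcon)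
    have h2 := hM _ h1
    have h3 : (ρ : ℂ) * (u / s)⁻¹ = r / u := by
      rw [hs]
      push_cast
      field_simp
    rw [h3] at h2
    rw [hge u hu0, norm_mul, norm_pow]
    have h4 : ‖FF φ u‖ ^ n ≤ 1 := pow_le_one₀ (norm_nonneg _) (e.norm_FF_lt huW).le
    calc ‖P.eval (r / u)‖ * ‖FF φ u‖ ^ n ≤ ‖P.eval (r / u)‖ * 1 :=
          mul_le_mul_of_nonneg_left h4 (norm_nonneg _)
      _ ≤ M := by rw [mul_one]; exact h2
  have huz : (r : ℂ) / z ∈ U := by
    show (r : ℂ) / z / s ∈ W G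
    have h0 : (r : ℂ) / z / s ≠ 0 := div_ne_zero (div_ne_zero hrc hz0) hsc
    rw [mem_W_of_ne h0]
    apply h.not_mem
    have h3 : ((r : ℂ) / z / s)⁻¹ = z / ρ := by
      rw [hs]
      push_cast
      field_simp
    rw [h3, norm_div, Complex.norm_real, Real.norm_of_nonneg hρ0.le, lt_div_iff₀ hρ0, one_mul]
    linarith
  have hfin := Complex.norm_le_of_forall_mem_frontier_norm_le hUb hdc hfr (subset_closure huz)
  have hrz : (r : ℂ) / z ≠ 0 := div_ne_zero hrc hz0
  rw [hge _ hrz, FF_ne hrz, norm_mul, norm_pow, norm_inv] at hfin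
  have h5 : (r : ℂ) / (r / z) = z := by field_simp
  have h6 : ((r : ℂ) / z)⁻¹ = z / r := by field_simp
  rw [h5, h6, inv_pow] at hfin
  have hzr : z / r ∉ closure G := by
    apply h.not_mem
    rw [norm_div, Complex.norm_real, Real.norm_of_nonneg hr.le, lt_div_iff₀ hr, one_mul]
    linarith
  have h7 : 0 < ‖φ (z / r)‖ ^ n := pow_pos (norm_pos_iff.2 (e.ne_zero hzr)) n
  rwa [← div_eq_mul_inv, div_le_iff₀ h7] at hfin

end Pool.Agent.Helper31.Berg
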