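import Pool.Agent.Helper31.Berg.Ext
import Pool.Graph.R_pool_sql_team_39128cda.Lib.helper9_.RMT

set_option autoImplicit false

open Set Filter Topology Metric Real

namespace Pool.Agent.Helper31.Berg

variable {G : Set ℂ}

/-- existence of the exterior conformal map -/
theorem exists_ext (h : Body G) : ∃ (φ : ℂ → ℂ) (c : ℝ), IsExt G φ c := by
  obtain ⟨ψ, χ, hc⟩ := Pool.Agent.Lib.helper9.RMT.rmt_bounded (isOpen_W h)
    (isSimplyConnected_W h) (isBounded_W h) (zero_mem_W (G := G))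
  have hW0 : W G ∈ 𝓝 (0 : ℂ) := (isOpen_W h).mem_nhds zero_mem_W
  have hψ0 : ψ 0 = 0 := hc.z
  have hχ0 : χ 0 = 0 := by
    have := hc.l 0 zero_mem_W
    rwa [hψ0] at this
  have hd : DifferentiableAt ℂ ψ 0 := hc.dψ.differentiableAt hW0
  have hdχ : DifferentiableAt ℂ χ 0 := hc.dφ.differentiableAt (ball_mem_nhds _ one_pos)
  set a : ℂ := deriv ψ 0 with ha
  have ha0 : a ≠ 0 := by
    intro h0
    have h1 : HasDerivAt (fun z => χ (ψ z)) (deriv χ 0 * a) 0 := by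
      have h2 : HasDerivAt χ (deriv χ 0) (ψ 0) := by rw [hψ0]; exact hdχ.hasDerivAt
      exact HasDerivAt.comp (𝕜 := ℂ) 0 h2 hd.hasDerivAt
    have h2 : HasDerivAt (fun z : ℂ => z) (deriv χ 0 * a) 0 := by
      refine h1.congr_of_eventuallyEq ?_
      filter_upwards [hW0] with z hz
      exact (hc.l z hz).symm
    have h3 := h2.unique (hasDerivAt_id' (0 : ℂ))
    rw [h0, mul_zero] at h3
    exact zero_ne_one h3
  set b : ℂ := (‖a‖ : ℂ) / a with hb
  have hbn : ‖b‖ = 1 := by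
    rw [hb, norm_div, Complex.norm_real, norm_norm, div_self (norm_ne_zero_iff.2 ha0)]
  have hb0 : b ≠ 0 := by
    rw [← norm_pos_iff, hbn]; exact one_pos
  have hKne : ∀ z : ℂ, z ∉ closure G → z ≠ 0 ∧ z⁻¹ ∈ W G ∧ ψ z⁻¹ ≠ 0 := by
    intro z hz
    have h0 : z ≠ 0 := by
      rintro rfl
      exact hz (subset_closure h.zero_mem)
    have h1 : z⁻¹ ∈ W G := by
      rw [mem_W_of_ne (inv_ne_zero h0), inv_inv]; exact hz
    refine ⟨h0, h1, fun h2 => inv_ne_zero h0 ?_⟩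
    rw [← hc.l _ h1, h2, hχ0]
  refine ⟨fun z => (b * ψ z⁻¹)⁻¹, ‖a‖, ?_, ⟨?_, ?_, ?_⟩, norm_pos_iff.2 ha0, ?_⟩
  · refine DifferentiableOn.inv ((differentiableOn_const _).mul (hc.dψ.comp
      (differentiableOn_id.inv fun z hz => (hKne z hz).1) fun z hz => (hKne z hz).2.1)) ?_
    intro z hz
    exact mul_ne_zero hb0 (hKne z hz).2.2
  · intro z hz
    show 1 < ‖(b * ψ z⁻¹)⁻¹‖
    rw [norm_inv, norm_mul, hbn, one_mul]
    exact (one_lt_inv₀ (norm_pos_iff.2 (hKne z hz).2.2)).2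
      (mem_ball_zero_iff.1 (hc.mψ (hKne z hz).2.1))
  · intro z hz w hw hzw
    simp only at hzw
    rw [inv_inj, mul_right_inj' hb0] at hzw
    have h1 := hc.l _ (hKne z hz).2.1
    rw [hzw, hc.l _ (hKne w hw).2.1, inv_inj] at h1
    exact h1.symm
  · intro w hw
    have hw1 : 1 < ‖w‖ := hw
    have hw0 : w ≠ 0 := by
      rw [← norm_pos_iff]; linarith
    have hv : (b * w)⁻¹ ∈ ball (0 : ℂ) 1 := by
      rw [mem_ball_zero_iff, norm_inv, norm_mul, hbn, one_mul]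
      exact inv_lt_one_of_one_lt₀ hw1
    have hvne : (b * w)⁻¹ ≠ 0 := inv_ne_zero (mul_ne_zero hb0 hw0)
    have hχne : χ (b * w)⁻¹ ≠ 0 := by
      intro h1
      apply hvne
      rw [← hc.r _ hv, h1, hψ0]
    refine ⟨(χ (b * w)⁻¹)⁻¹, ?_, ?_⟩
    · exact (mem_W_of_ne hχne).1 (hc.mφ hv)
    · simp only [inv_inv]
      rw [hc.r _ hv]
      field_simp
  · have h1 : Tendsto (fun u : ℂ => ψ u / u) (𝓝[≠] 0) (𝓝 a) := by
      have := hasDerivAt_iff_tendsto_slope.1 hd.hasDerivAt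
      refine this.congr fun u => ?_
      rw [slope_def_field, hψ0, sub_zero, sub_zero]
    have h2 : Tendsto (fun z : ℂ => ψ z⁻¹ / z⁻¹) (Bornology.cobounded ℂ) (𝓝 a) :=
      h1.comp tendsto_inv₀_cobounded'
    have h3 : Tendsto (fun z : ℂ => (b * (ψ z⁻¹ / z⁻¹))⁻¹) (Bornology.cobounded ℂ)
        (𝓝 ((b * a)⁻¹)) := (h2.const_mul b).inv₀ (mul_ne_zero hb0 ha0)
    have h4 : (b * a)⁻¹ = ((1 / ‖a‖ : ℝ) : ℂ) := by
      rw [hb, div_mul_cancel₀ _ ha0]
      push_cast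
      rw [one_div]
    rw [h4] at h3
    refine h3.congr fun z => ?_
    rw [div_inv_eq_mul, ← mul_assoc, mul_inv, div_eq_mul_inv]

end Pool.Agent.Helper31.Berg
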