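import Mathlib

set_option autoImplicit false

open Set Filter Topology Metric

namespace Pool.Agent.Helper31.Berg

/-- an injective holomorphic function has nonzero derivative -/
theorem deriv_ne_zero_of_injOn {U : Set ℂ} (hU : IsOpen U) {f : ℂ → ℂ}
    (hf : DifferentiableOn ℂ f U) (hi : InjOn f U) {a : ℂ} (ha : a ∈ U) : deriv f a ≠ 0 := by
  intro h0
  have han : AnalyticAt ℂ f a := hf.analyticAt (hU.mem_nhds ha)
  have hg : AnalyticAt ℂ (fun z => f z - f a) a := han.sub analyticAt_const
  have hfin : analyticOrderAt (fun z => f z - f a) a ≠ ⊤ := by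
    intro h
    rw [analyticOrderAt_eq_top] at h
    obtain ⟨r, hr, hball⟩ := Metric.eventually_nhds_iff_ball.1 (h.and (hU.mem_nhds ha))
    have h1 : a + (r / 2 : ℝ) ∈ ball a r := by
      rw [mem_ball, dist_eq_norm, add_sub_cancel_left, Complex.norm_real, Real.norm_of_nonneg
        (by positivity)]
      linarith
    have h2 := hball _ h1
    have h3 : a + (r / 2 : ℝ) = a := hi h2.2 ha (by linear_combination h2.1)
    have h4 : ((r / 2 : ℝ) : ℂ) = 0 := by linear_combination h3
    rw [Complex.ofReal_eq_zero] at h4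
    linarith
  obtain ⟨n, hn⟩ := ENat.ne_top_iff_exists.1 hfin
  obtain ⟨g, hga, hg0, heq⟩ := hg.analyticOrderAt_eq_natCast.1 hn.symm
  have hn0 : n ≠ 0 := by
    rintro rfl
    have := heq.self_of_nhds
    simp at this
    exact hg0 this.symm
  have hprod : ∀ k : ℂ → ℂ, AnalyticAt ℂ k a → HasDerivAt (fun z => (z - a) * k z) (k a) a := by
    intro k hk
    have h2 := ((hasDerivAt_id a).sub_const a).fun_mul hk.differentiableAt.hasDerivAt
    simpa using h2
  have hn1 : n ≠ 1 := by
    rintro rfl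
    have h1 : HasDerivAt (fun z => (z - a) ^ 1 • g z) (g a) a := by
      simpa using hprod g hga
    have h3 : HasDerivAt (fun z => f z - f a) (g a) a := h1.congr_of_eventuallyEq heq
    have h4 : HasDerivAt f (g a) a := by simpa using h3.add_const (f a)
    exact hg0 (by rw [← h4.deriv, h0])
  have hnC : (n : ℂ) ≠ 0 := by exact_mod_cast hn0
  -- the root
  obtain ⟨b, hb⟩ : ∃ b : ℂ, b ^ n = g a := by
    exact ⟨(g a) ^ (1 / (n : ℂ)), by
      rw [← Complex.cpow_nat_mul, mul_one_div_cancel hnC, Complex.cpow_one]⟩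
  have hb0 : b ≠ 0 := by
    rintro rfl
    rw [zero_pow hn0] at hb
    exact hg0 hb.symm
  set k : ℂ → ℂ := fun z => b * (g z / g a) ^ (1 / (n : ℂ)) with hk
  have hka : k a = b := by
    simp only [hk]
    rw [div_self hg0, Complex.one_cpow, mul_one]
  have hkan : AnalyticAt ℂ k a := by
    refine analyticAt_const.mul ?_
    refine AnalyticAt.cpow (f := fun z => g z / g a) (hga.div analyticAt_const hg0)
      analyticAt_const ?_
    show g a / g a ∈ Complex.slitPlane
    rw [div_self hg0]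
    exact Complex.one_mem_slitPlane
  set h : ℂ → ℂ := fun z => (z - a) * k z with hh
  have hhn : ∀ᶠ z in 𝓝 a, h z ^ n = f z - f a := by
    filter_upwards [heq] with z hz
    rw [hz, hh]
    simp only [hk]
    rw [mul_pow, mul_pow, hb, ← Complex.cpow_nat_mul, mul_one_div_cancel hnC, Complex.cpow_one,
      smul_eq_mul, mul_div_cancel₀ _ hg0]
  have hd : AnalyticAt ℂ h a := (analyticAt_id.sub analyticAt_const).mul hkan
  have hder : deriv h a = b := by rw [(hprod k hkan).deriv, hka]
  have hstr : HasStrictDerivAt h (deriv h a) a := hd.hasStrictDerivAt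
  have hmap := hstr.map_nhds_eq (by rw [hder]; exact hb0)
  have hha : h a = 0 := by simp [hh]
  rw [hha] at hmap
  obtain ⟨V, hV, hVs⟩ := (hhn.and (hU.mem_nhds ha)).exists_mem
  have himg : h '' V ∈ 𝓝 (0 : ℂ) := by
    rw [← hmap]
    exact image_mem_map hV
  set ζ : ℂ := Complex.exp (2 * Real.pi * Complex.I / n) with hζ
  have hprim : IsPrimitiveRoot ζ n := Complex.isPrimitiveRoot_exp n hn0
  have hζ1 : ζ ≠ 1 := hprim.ne_one (by omega)
  have hζn : ζ ^ n = 1 := hprim.pow_eq_one
  have hζnorm : ‖ζ‖ = 1 := hprim.norm'_eq_one hn0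
  obtain ⟨r, hr, hball⟩ := Metric.mem_nhds_iff.1 himg
  have hε : ((r / 2 : ℝ) : ℂ) ∈ ball (0 : ℂ) r := by
    rw [mem_ball_zero_iff, Complex.norm_real, Real.norm_of_nonneg (by positivity)]
    linarith
  have hε2 : ζ * ((r / 2 : ℝ) : ℂ) ∈ ball (0 : ℂ) r := by
    rw [mem_ball_zero_iff, norm_mul, hζnorm, one_mul, Complex.norm_real,
      Real.norm_of_nonneg (by positivity)]
    linarith
  obtain ⟨z1, hz1, he1⟩ := hball hε
  obtain ⟨z2, hz2, he2⟩ := hball hε2
  have e1 := (hVs z1 hz1).1
  have e2 := (hVs z2 hz2).1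
  rw [he1] at e1
  rw [he2, mul_pow, hζn, one_mul] at e2
  have h5 : f z1 = f z2 := by linear_combination e2 - e1
  have h6 : z1 = z2 := hi (hVs z1 hz1).2 (hVs z2 hz2).2 h5
  rw [h6, he2] at he1
  have h7 : ((r / 2 : ℝ) : ℂ) ≠ 0 := by
    rw [Ne, Complex.ofReal_eq_zero]
    positivity
  exact hζ1 (mul_right_cancel₀ h7 (by rw [he1, one_mul]))

/-- the inverse of an injective holomorphic function is holomorphic -/
theorem differentiableOn_invFunOn {U : Set ℂ} (hU : IsOpen U) {f : ℂ → ℂ}
    (hf : DifferentiableOn ℂ f U) (hi : InjOn f U) :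
    DifferentiableOn ℂ (Function.invFunOn f U) (f '' U) := by
  rintro _ ⟨z, hz, rfl⟩
  have hl : ∀ z ∈ U, Function.invFunOn f U (f z) = z := fun z hz => hi.leftInvOn_invFunOn hz
  exact ((hf.analyticAt (hU.mem_nhds hz)).hasStrictDerivAt.to_local_left_inverse
    (deriv_ne_zero_of_injOn hU hf hi hz)
    ((hU.eventually_mem hz).mono hl)).hasDerivAt.differentiableAt.differentiableWithinAt

end Pool.Agent.Helper31.Berg
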