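import Pool.Agent.Helper31.Berg.Geom
import Pool.Agent.Helper31.Berg.Inj

set_option autoImplicit false

open Set Filter Topology Metric Real

namespace Pool.Agent.Helper31.Berg

/-- exterior conformal map of `closure G` with capacity `c` -/
structure IsExt (G : Set ℂ) (φ : ℂ → ℂ) (c : ℝ) : Prop where
  diff : DifferentiableOn ℂ φ (closure G)ᶜ
  bij : BijOn φ (closure G)ᶜ {w | 1 < ‖w‖}
  pos : 0 < c
  lim : Tendsto (fun z => φ z / z) (Bornology.cobounded ℂ) (𝓝 ((1 / c : ℝ) : ℂ))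

/-- the inverted exterior map -/
noncomputable def FF (φ : ℂ → ℂ) (u : ℂ) : ℂ := if u = 0 then 0 else (φ u⁻¹)⁻¹

variable {G : Set ℂ} {φ : ℂ → ℂ} {c : ℝ}

theorem FF_zero : FF φ 0 = 0 := by simp [FF]

theorem FF_ne {u : ℂ} (hu : u ≠ 0) : FF φ u = (φ u⁻¹)⁻¹ := by simp [FF, hu]

namespace IsExt

variable (e : IsExt G φ c)

include e

theorem one_lt {z : ℂ} (hz : z ∉ closure G) : 1 < ‖φ z‖ := e.bij.mapsTo hz

theorem ne_zero {z : ℂ} (hz : z ∉ closure G) : φ z ≠ 0 := by
  have := e.one_lt hz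
  intro h0
  rw [h0, norm_zero] at this
  linarith

theorem norm_FF_lt {u : ℂ} (hu : u ∈ W G) : ‖FF φ u‖ < 1 := by
  by_cases h0 : u = 0
  · rw [h0, FF_zero, norm_zero]; exact one_pos
  rw [FF_ne h0, norm_inv]
  exact inv_lt_one_of_one_lt₀ (e.one_lt ((mem_W_of_ne h0).1 hu))

theorem FF_ne_zero {u : ℂ} (hu : u ∈ W G) (h0 : u ≠ 0) : FF φ u ≠ 0 := by
  rw [FF_ne h0]
  exact inv_ne_zero (e.ne_zero ((mem_W_of_ne h0).1 hu))

theorem tendsto_div : Tendsto (fun u => FF φ u / u) (𝓝[≠] 0) (𝓝 (c : ℂ)) := by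
  have h1 : Tendsto (fun u : ℂ => φ u⁻¹ / u⁻¹) (𝓝[≠] 0) (𝓝 ((1 / c : ℝ) : ℂ)) :=
    e.lim.comp tendsto_inv₀_nhdsNE_zero
  have hc : ((1 / c : ℝ) : ℂ) ≠ 0 := by
    have := e.pos
    exact_mod_cast (one_div_pos.2 this).ne'
  have h2 := h1.inv₀ hc
  have h3 : (((1 / c : ℝ) : ℂ))⁻¹ = c := by
    push_cast
    rw [one_div, inv_inv]
  rw [h3] at h2
  refine h2.congr' ?_
  filter_upwards [self_mem_nhdsWithin] with u hu
  rw [FF_ne hu, inv_div, div_eq_mul_inv, div_eq_mul_inv, mul_comm]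

theorem differentiableOn_FF (h : Body G) : DifferentiableOn ℂ (FF φ) (W G) := by
  have hW : W G ∈ 𝓝 (0 : ℂ) := (isOpen_W h).mem_nhds zero_mem_W
  rw [← Complex.differentiableOn_compl_singleton_and_continuousAt_iff hW]
  constructor
  · have h1 : DifferentiableOn ℂ (fun u => (φ u⁻¹)⁻¹) (W G \ {0}) := by
      refine DifferentiableOn.inv ?_ ?_
      · refine e.diff.comp (differentiableOn_id.inv fun u hu => hu.2) ?_
        intro u hu
        exact (mem_W_of_ne hu.2).1 hu.1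
      · intro u hu
        exact e.ne_zero ((mem_W_of_ne hu.2).1 hu.1)
    exact h1.congr fun u hu => FF_ne hu.2
  · have h2 : Tendsto (fun u => FF φ u / u * u) (𝓝[≠] 0) (𝓝 ((c : ℂ) * 0)) :=
      e.tendsto_div.mul (tendsto_id.mono_left nhdsWithin_le_nhds)
    rw [mul_zero] at h2
    have h3 : Tendsto (FF φ) (𝓝[≠] 0) (𝓝 (FF φ 0)) := by
      rw [FF_zero]
      refine h2.congr' ?_
      filter_upwards [self_mem_nhdsWithin] with u hu
      exact div_mul_cancel₀ _ hu
    exact continuousAt_iff_punctured_nhds.2 h3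

theorem injOn_FF : InjOn (FF φ) (W G) := by
  intro u hu v hv huv
  by_cases hu0 : u = 0
  · by_contra hne
    have hv0 : v ≠ 0 := fun h' => hne (by rw [hu0, h'])
    rw [hu0, FF_zero] at huv
    exact e.FF_ne_zero hv hv0 huv.symm
  by_cases hv0 : v = 0
  · rw [hv0, FF_zero] at huv
    exact absurd huv (e.FF_ne_zero hu hu0)
  rw [FF_ne hu0, FF_ne hv0, inv_inj] at huv
  exact inv_inj.1 (e.bij.injOn ((mem_W_of_ne hu0).1 hu) ((mem_W_of_ne hv0).1 hv) huv)

theorem image_FF (h : Body G) : FF φ '' (W G) = ball 0 1 := by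
  ext v
  constructor
  · rintro ⟨u, hu, rfl⟩
    exact mem_ball_zero_iff.2 (e.norm_FF_lt hu)
  · intro hv
    rw [mem_ball_zero_iff] at hv
    by_cases hv0 : v = 0
    · exact ⟨0, zero_mem_W, by rw [FF_zero, hv0]⟩
    have h1 : v⁻¹ ∈ {w : ℂ | 1 < ‖w‖} := by
      show 1 < ‖v⁻¹‖
      rw [norm_inv]
      exact (one_lt_inv₀ (norm_pos_iff.2 hv0)).2 hv
    obtain ⟨z, hz, hzv⟩ := e.bij.surjOn h1
    by_cases hz0 : z = 0
    · exact absurd (by
        rw [hz0]
        exact subset_closure h.zero_mem) hz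
    refine ⟨z⁻¹, ?_, ?_⟩
    · rw [mem_W_of_ne (inv_ne_zero hz0), inv_inv]
      exact hz
    · rw [FF_ne (inv_ne_zero hz0), inv_inv, hzv, inv_inv]

theorem hasDerivAt_zero : HasDerivAt (FF φ) c 0 := by
  rw [hasDerivAt_iff_tendsto_slope]
  refine e.tendsto_div.congr' ?_
  filter_upwards [self_mem_nhdsWithin] with u _
  rw [slope_def_field, FF_zero, sub_zero, sub_zero]

/-- the inverse of `FF φ` -/
noncomputable def _root_.Pool.Agent.Helper31.Berg.EE (G : Set ℂ) (φ : ℂ → ℂ) : ℂ → ℂ :=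
  Function.invFunOn (FF φ) (W G)

theorem differentiableOn_EE (h : Body G) : DifferentiableOn ℂ (EE G φ) (ball 0 1) := by
  have := differentiableOn_invFunOn (isOpen_W h) (e.differentiableOn_FF h) e.injOn_FF
  rwa [e.image_FF h] at this

theorem EE_mem (h : Body G) {v : ℂ} (hv : v ∈ ball (0 : ℂ) 1) : EE G φ v ∈ W G := by
  rw [← e.image_FF h] at hv
  exact Function.invFunOn_mem hv

theorem FF_EE (h : Body G) {v : ℂ} (hv : v ∈ ball (0 : ℂ) 1) : FF φ (EE G φ v) = v := by
  rw [← e.image_FF h] at hv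
  exact Function.invFunOn_eq hv

theorem EE_zero (h : Body G) : EE G φ 0 = 0 := by
  have h1 := e.FF_EE h (mem_ball_self one_pos : (0 : ℂ) ∈ ball (0 : ℂ) 1)
  exact e.injOn_FF (e.EE_mem h (mem_ball_self one_pos)) zero_mem_W (by rw [h1, FF_zero])

theorem EE_ne_zero (h : Body G) {v : ℂ} (hv : v ∈ ball (0 : ℂ) 1) (h0 : v ≠ 0) : EE G φ v ≠ 0 := by
  intro h1
  apply h0
  rw [← e.FF_EE h hv, h1, FF_zero]

theorem hasDerivAt_EE_zero (h : Body G) : HasDerivAt (EE G φ) ((c : ℂ)⁻¹) 0 := by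
  have hc : (c : ℂ) ≠ 0 := by exact_mod_cast e.pos.ne'
  have h1 : HasStrictDerivAt (FF φ) c 0 := by
    have h2 := ((e.differentiableOn_FF h).analyticAt
      ((isOpen_W h).mem_nhds zero_mem_W)).hasStrictDerivAt
    rwa [e.hasDerivAt_zero.deriv] at h2
  have h3 := (h1.to_local_left_inverse hc (g := EE G φ)
    (((isOpen_W h).eventually_mem zero_mem_W).mono fun z hz =>
      e.injOn_FF.leftInvOn_invFunOn hz)).hasDerivAt
  rwa [FF_zero] at h3

/-- the mean of `log |φ|` over a circle outside the unit disc -/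
theorem circleAverage_log (h : Body G) {R : ℝ} (hR : 1 < R) :
    circleAverage (fun z => Real.log ‖φ z‖) 0 R = Real.log R - Real.log c := by
  have hR0 : 0 < R := by linarith
  set H : ℂ → ℂ := dslope (FF φ) 0 with hH
  have hHd : DifferentiableOn ℂ H (W G) :=
    (Complex.differentiableOn_dslope ((isOpen_W h).mem_nhds zero_mem_W)).2
      (e.differentiableOn_FF h)
  have hH0 : H 0 = c := by rw [hH, dslope_same, e.hasDerivAt_zero.deriv]
  have hHne : ∀ u, u ≠ 0 → H u = FF φ u / u := fun u hu => by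
    rw [hH, dslope_of_ne _ hu, slope_def_field, FF_zero, sub_zero, sub_zero]
  have hcc : (c : ℂ) ≠ 0 := by exact_mod_cast e.pos.ne'
  have hHz : ∀ u ∈ W G, H u ≠ 0 := by
    intro u hu
    by_cases h0 : u = 0
    · rw [h0, hH0]; exact hcc
    rw [hHne u h0]
    exact div_ne_zero (e.FF_ne_zero hu h0) h0
  have hsub : closedBall (0 : ℂ) |R⁻¹| ⊆ W G := by
    refine Subset.trans ?_ (ball_subset_W h)
    intro u hu
    rw [mem_closedBall_zero_iff, abs_of_pos (inv_pos.2 hR0)] at hu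
    rw [mem_ball_zero_iff]
    exact lt_of_le_of_lt hu (inv_lt_one_of_one_lt₀ hR)
  have hmean := AnalyticOnNhd.circleAverage_log_norm_of_ne_zero (c := 0) (R := R⁻¹) (g := H)
    (fun u hu => hHd.analyticAt ((isOpen_W h).mem_nhds (hsub hu)))
    (fun u hu => hHz u (hsub hu))
  rw [hH0, Complex.norm_real, Real.norm_of_nonneg e.pos.le] at hmean
  -- inversion
  have h1 : circleAverage (fun z => Real.log ‖H z⁻¹‖) 0 R = Real.log c := by
    rw [circleAverage_eq_circleAverage_zero_one]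
    have h2 := circleAverage_zero_one_congr_inv (f := fun z : ℂ => Real.log ‖H ((R : ℂ)⁻¹ * z)‖)
    have h3 : circleAverage (fun z => Real.log ‖H z‖) 0 R⁻¹ =
        circleAverage (fun z : ℂ => Real.log ‖H ((R : ℂ)⁻¹ * z)‖) 0 1 := by
      rw [circleAverage_eq_circleAverage_zero_one]
      simp
    rw [← hmean, h3, ← h2]
    congr 1
    ext z
    simp [mul_comm]
  have h4 : circleAverage (fun z => Real.log ‖φ z‖) 0 R =
      circleAverage (fun z => Real.log R - Real.log ‖H z⁻¹‖) 0 R := by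
    apply circleAverage_congr_sphere
    intro z hz
    rw [mem_sphere_zero_iff_norm, abs_of_pos hR0] at hz
    have hz0 : z ≠ 0 := by
      rw [← norm_pos_iff, hz]; exact hR0
    have hzK : z ∉ closure G := h.not_mem (by rw [hz]; exact hR)
    simp only
    rw [hHne _ (inv_ne_zero hz0), FF_ne (inv_ne_zero hz0), inv_inv, norm_div, norm_inv, norm_inv,
      hz, inv_div_inv, Real.log_div hR0.ne' (norm_ne_zero_iff.2 (e.ne_zero hzK))]
    ring
  rw [h4]
  have hci : CircleIntegrable (fun z => Real.log ‖H z⁻¹‖) 0 R := by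
    apply ContinuousOn.circleIntegrable'
    intro z hz
    rw [mem_sphere_zero_iff_norm, abs_of_pos hR0] at hz
    have hz0 : z ≠ 0 := by
      rw [← norm_pos_iff, hz]; exact hR0
    have hzW : z⁻¹ ∈ W G := by
      rw [mem_W_of_ne (inv_ne_zero hz0), inv_inv]
      exact h.not_mem (by rw [hz]; exact hR)
    have h5 : ContinuousAt H z⁻¹ :=
      (hHd.differentiableAt ((isOpen_W h).mem_nhds hzW)).continuousAt
    have h6 : ContinuousAt (fun z => H z⁻¹) z :=
      ContinuousAt.comp (f := fun z : ℂ => z⁻¹) h5 (continuousAt_inv₀ hz0)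
    exact (h6.norm.log (norm_ne_zero_iff.2 (hHz _ hzW))).continuousWithinAt
  have hcst : CircleIntegrable (fun _ : ℂ => Real.log R) 0 R := circleIntegrable_const _ _ _
  have h7 := circleAverage_fun_sub hcst hci
  rw [h7, circleAverage_const, h1]

end IsExt

end Pool.Agent.Helper31.Berg
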