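import Pool.Agent.Helper31.Berg.Ext

set_option autoImplicit false

open Set Filter Topology Metric Real Polynomial

namespace Pool.Agent.Helper31.Berg

variable {G : Set ℂ} {φ : ℂ → ℂ} {c : ℝ}

/-- Riemann sums of a continuous function with known modulus of continuity -/
theorem riemann_le {g : ℝ → ℝ} (hg : Continuous g) {η : ℝ} {n : ℕ} (hn : n ≠ 0)
    (hmod : ∀ x ∈ Icc (0 : ℝ) (2 * π), ∀ y ∈ Icc (0 : ℝ) (2 * π), |x - y| ≤ 2 * π / n →
      |g x - g y| ≤ η) :
    ∑ k ∈ Finset.range n, g (2 * π * k / n) ≤ n * ((2 * π)⁻¹ * (∫ θ in (0 : ℝ)..(2 * π), g θ) + η) := by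
  have hn0 : (0 : ℝ) < n := by exact_mod_cast Nat.pos_of_ne_zero hn
  have hπ : 0 < 2 * π := by positivity
  set a : ℕ → ℝ := fun k => 2 * π * k / n with ha
  have ha0 : a 0 = 0 := by simp [ha]
  have han : a n = 2 * π := by simp only [ha]; field_simp
  have hstep : ∀ k, a (k + 1) - a k = 2 * π / n := by
    intro k; simp only [ha]; push_cast; field_simp; ring
  have hsum := intervalIntegral.sum_integral_adjacent_intervals (f := g) (a := a) (n := n)
    (μ := MeasureTheory.volume) (fun k _ => hg.intervalIntegrable _ _)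
  rw [ha0, han] at hsum
  have hmem : ∀ k, k ≤ n → a k ∈ Icc (0 : ℝ) (2 * π) := by
    intro k hk
    have hk' : (k : ℝ) ≤ n := by exact_mod_cast hk
    refine ⟨by positivity, ?_⟩
    simp only [ha]
    rw [div_le_iff₀ hn0]
    exact mul_le_mul_of_nonneg_left hk' hπ.le
  have hk : ∀ k ∈ Finset.range n, (2 * π / n) * (g (a k) - η) ≤ ∫ θ in (a k)..(a (k + 1)), g θ := by
    intro k hk
    rw [Finset.mem_range] at hk
    have hle : a k ≤ a (k + 1) := by
      have := hstep k
      have h2 : 0 < 2 * π / n := by positivity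
      linarith
    have h1 : ∫ θ in (a k)..(a (k + 1)), (g (a k) - η) ≤ ∫ θ in (a k)..(a (k + 1)), g θ := by
      apply intervalIntegral.integral_mono_on hle (by simp) (hg.intervalIntegrable _ _)
      intro x hx
      have h3 : x ∈ Icc (0 : ℝ) (2 * π) :=
        ⟨(hmem k hk.le).1.trans hx.1, hx.2.trans (hmem (k + 1) hk).2⟩
      have h4 := hmod (a k) (hmem k hk.le) x h3 (by
        rw [abs_sub_comm, abs_of_nonneg (by linarith [hx.1]), ← hstep k]
        linarith [hx.2])
      linarith [(abs_le.1 h4).2]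
    rw [intervalIntegral.integral_const, hstep, smul_eq_mul] at h1
    exact h1
  have h5 := Finset.sum_le_sum hk
  rw [hsum, ← Finset.mul_sum, Finset.sum_sub_distrib, Finset.sum_const, Finset.card_range,
    nsmul_eq_mul] at h5
  have h6 : ∑ k ∈ Finset.range n, g (a k) - n * η ≤ n * ((2 * π)⁻¹ * ∫ θ in (0 : ℝ)..(2 * π), g θ) := by
    have h7 : (2 * π / n)⁻¹ * (2 * π / n * (∑ k ∈ Finset.range n, g (a k) - n * η)) ≤
        (2 * π / n)⁻¹ * ∫ θ in (0 : ℝ)..(2 * π), g θ :=
      mul_le_mul_of_nonneg_left h5 (by positivity)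
    rw [← mul_assoc, inv_mul_cancel₀ (by positivity), one_mul] at h7
    refine h7.trans (le_of_eq ?_)
    field_simp
  linarith

theorem exists_monic (h : Body G) (e : IsExt G φ c) {ε : ℝ} (hε : 0 < ε) :
    ∀ᶠ n : ℕ in atTop, ∃ Q : ℂ[X], Q.Monic ∧ Q.natDegree = n ∧
      ∀ z ∈ closure G, ‖Q.eval z‖ ≤ Real.exp (n * (Real.log c + ε)) := by
  set E : ℂ → ℂ := EE G φ with hE
  have hEd : DifferentiableOn ℂ E (ball 0 1) := e.differentiableOn_EE h
  set HE : ℂ → ℂ := dslope E 0 with hHE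
  have hb : ball (0 : ℂ) 1 ∈ 𝓝 (0 : ℂ) := ball_mem_nhds _ one_pos
  have hHEd : DifferentiableOn ℂ HE (ball 0 1) := (Complex.differentiableOn_dslope hb).2 hEd
  have hE0 : E 0 = 0 := e.EE_zero h
  have hHE0 : HE 0 = (c : ℂ)⁻¹ := by rw [hHE, dslope_same, (e.hasDerivAt_EE_zero h).deriv]
  have hcc : (c : ℂ) ≠ 0 := by exact_mod_cast e.pos.ne'
  have hHEne : ∀ v, v ≠ 0 → HE v = E v / v := fun v hv => by
    rw [hHE, dslope_of_ne _ hv, slope_def_field, hE0, sub_zero, sub_zero]
  have hHEz : ∀ v ∈ ball (0 : ℂ) 1, HE v ≠ 0 := by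
    intro v hv
    by_cases h0 : v = 0
    · rw [h0, hHE0]; exact inv_ne_zero hcc
    rw [hHEne v h0]
    exact div_ne_zero (e.EE_ne_zero h hv h0) h0
  have hone : ∀ z ∈ closure G, ∀ v ∈ ball (0 : ℂ) 1, 1 - z * E v ≠ 0 := by
    intro z hz v hv h1
    have h2 : z * E v = 1 := by linear_combination -h1
    have h3 : E v ≠ 0 := by
      intro h4
      rw [h4, mul_zero] at h2
      exact zero_ne_one h2
    have h4 := (mem_W_of_ne h3).1 (e.EE_mem h hv)
    apply h4
    rwa [← eq_inv_of_mul_eq_one_left h2]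
  set s : ℝ := Real.exp (-(ε / 2)) with hs
  have hs0 : 0 < s := Real.exp_pos _
  have hs1 : s < 1 := by rw [hs, Real.exp_lt_one_iff]; linarith
  set A : ℂ → ℂ → ℂ := fun z v => (1 - z * E v) / HE v with hA
  have hAmean : ∀ z ∈ closure G,
      circleAverage (fun v => Real.log ‖A z v‖) 0 s = Real.log c := by
    intro z hz
    have hd : DifferentiableOn ℂ (A z) (ball 0 1) :=
      ((differentiableOn_const _).sub ((differentiableOn_const _).mul hEd)).div hHEd hHEz
    have hsub : closedBall (0 : ℂ) |s| ⊆ ball 0 1 := by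
      rw [abs_of_pos hs0]; exact closedBall_subset_ball hs1
    have h1 := AnalyticOnNhd.circleAverage_log_norm_of_ne_zero (c := 0) (R := s) (g := A z)
      (fun u hu => hd.analyticAt (isOpen_ball.mem_nhds (hsub hu)))
      (fun u hu => div_ne_zero (hone z hz u (hsub hu)) (hHEz u (hsub hu)))
    rw [h1]
    simp only [hA, hE0, hHE0, mul_zero, sub_zero, one_div, inv_inv]
    rw [Complex.norm_real, Real.norm_of_nonneg e.pos.le]
  set cm : ℝ → ℂ := circleMap 0 s with hcm
  have hcmb : ∀ θ, cm θ ∈ ball (0 : ℂ) 1 := fun θ => by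
    rw [mem_ball_zero_iff, hcm]
    simp [abs_of_pos hs0, hs1]
  have hcmn : ∀ θ, ‖cm θ‖ = s := fun θ => by
    rw [hcm]
    simp [abs_of_pos hs0]
  have hcm0 : ∀ θ, cm θ ≠ 0 := fun θ => by
    rw [← norm_pos_iff, hcmn]; exact hs0
  set g : ℂ × ℝ → ℝ := fun p => Real.log ‖A p.1 (cm p.2)‖ with hg
  have hEc : Continuous fun θ => E (cm θ) :=
    hEd.continuousOn.comp_continuous (continuous_circleMap 0 s) hcmb
  have hHEc : Continuous fun θ => HE (cm θ) :=
    hHEd.continuousOn.comp_continuous (continuous_circleMap 0 s) hcmb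
  have hAc : Continuous fun p : ℂ × ℝ => A p.1 (cm p.2) := by
    simp only [hA]
    exact (continuous_const.sub (continuous_fst.mul (hEc.comp continuous_snd))).div
      (hHEc.comp continuous_snd) fun p => hHEz _ (hcmb _)
  have hgc : ContinuousOn g (closure G ×ˢ (univ : Set ℝ)) := by
    intro p hp
    exact (hAc.continuousAt.norm.log (norm_ne_zero_iff.2
      (div_ne_zero (hone p.1 hp.1 _ (hcmb _)) (hHEz _ (hcmb _))))).continuousWithinAt
  have hcomp : IsCompact (closure G ×ˢ Icc (0 : ℝ) (2 * π)) :=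
    h.isCompact_closure.prod isCompact_Icc
  have huc : UniformContinuousOn g (closure G ×ˢ Icc (0 : ℝ) (2 * π)) :=
    hcomp.uniformContinuousOn_of_continuous (hgc.mono (prod_mono_right (subset_univ _)))
  rw [Metric.uniformContinuousOn_iff] at huc
  obtain ⟨δ, hδ, hunif⟩ := huc (ε / 2) (by positivity)
  have hev : ∀ᶠ n : ℕ in atTop, 2 * π / n < δ := by
    have : Tendsto (fun n : ℕ => 2 * π / (n : ℝ)) atTop (𝓝 0) := tendsto_const_div_atTop_nhds_zero_nat _
    exact this.eventually (gt_mem_nhds hδ)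
  filter_upwards [hev, eventually_ne_atTop 0] with n hn hn0
  refine ⟨∏ k ∈ Finset.range n, (X - C (E (cm (2 * π * k / n)))⁻¹), monic_prod_of_monic _ _
    fun k _ => monic_X_sub_C _, ?_, ?_⟩
  · rw [natDegree_prod_of_monic _ _ fun k _ => monic_X_sub_C _]
    simp
  intro z hz
  have hfac : ∀ θ, ‖z - (E (cm θ))⁻¹‖ = Real.exp (g (z, θ) + ε / 2) := by
    intro θ
    have hv := hcmb θ
    have hv0 := hcm0 θ
    have hE' : E (cm θ) ≠ 0 := e.EE_ne_zero h hv hv0
    have hAne : A z (cm θ) ≠ 0 := div_ne_zero (hone z hz _ hv) (hHEz _ hv)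
    have h1 : z - (E (cm θ))⁻¹ = - (A z (cm θ) / cm θ) := by
      simp only [hA]
      rw [hHEne _ hv0]
      field_simp
      ring
    rw [h1, norm_neg, norm_div, hcmn, Real.exp_add, hg]
    simp only
    rw [Real.exp_log (norm_pos_iff.2 hAne), hs, Real.exp_neg, div_inv_eq_mul]
  rw [eval_prod, norm_prod]
  simp only [eval_sub, eval_X, eval_C]
  simp_rw [hfac]
  rw [← Real.exp_sum, Real.exp_le_exp, Finset.sum_add_distrib, Finset.sum_const,
    Finset.card_range, nsmul_eq_mul]
  have hgz : Continuous fun θ => g (z, θ) :=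
    hgc.comp_continuous (by fun_prop) fun θ => ⟨hz, mem_univ _⟩
  have hR := riemann_le hgz hn0 (η := ε / 2) (fun x hx y hy hxy => by
    have := hunif (z, x) ⟨hz, hx⟩ (z, y) ⟨hz, hy⟩ (by
      rw [Prod.dist_eq, dist_self, max_eq_right dist_nonneg, Real.dist_eq]
      exact lt_of_le_of_lt hxy hn)
    rw [Real.dist_eq] at this
    exact this.le)
  have hm := hAmean z hz
  rw [circleAverage] at hm
  have hm2 : (2 * π)⁻¹ * ∫ θ in (0 : ℝ)..(2 * π), g (z, θ) = Real.log c := by
    rw [← hm, smul_eq_mul]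
  rw [hm2] at hR
  linarith

end Pool.Agent.Helper31.Berg
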