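import Pool.Agent.Helper31.Berg.BW
import Pool.Agent.Helper31.Berg.Area
import Pool.Agent.Helper31.Berg.Upper

set_option autoImplicit false

open Set Filter Topology Metric Real Polynomial MeasureTheory

namespace Pool.Agent.Helper31.Berg

variable {G : Set ℂ} {φ : ℂ → ℂ} {c : ℝ}

/-- inner product over `G` -/
noncomputable def inn (G : Set ℂ) (p q : ℂ[X]) : ℂ :=
  ∫ z in G, p.eval z * starRingEnd ℂ (q.eval z)

theorem Body.integrableOn (h : Body G) {E : Type*} [NormedAddCommGroup E] {f : ℂ → E}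
    (hf : Continuous f) : IntegrableOn f G :=
  (hf.continuousOn.integrableOn_compact h.isCompact_closure).mono_set subset_closure

theorem inn_sub_left (h : Body G) (p q r : ℂ[X]) : inn G (p - q) r = inn G p r - inn G q r := by
  have hr : Continuous fun z => starRingEnd ℂ (r.eval z) :=
    Complex.continuous_conj.comp r.continuous
  have h1 : IntegrableOn (fun z => p.eval z * starRingEnd ℂ (r.eval z)) G :=
    h.integrableOn (p.continuous.mul hr)
  have h2 : IntegrableOn (fun z => q.eval z * starRingEnd ℂ (r.eval z)) G :=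
    h.integrableOn (q.continuous.mul hr)
  unfold inn
  rw [← integral_sub h1 h2]
  congr 1
  ext z
  rw [eval_sub, sub_mul]

theorem inn_smul_left (a : ℂ) (p r : ℂ[X]) : inn G (C a * p) r = a * inn G p r := by
  unfold inn
  rw [← integral_const_mul]
  congr 1
  ext z
  rw [eval_mul, eval_C, mul_assoc]

theorem inn_conj (p q : ℂ[X]) : inn G q p = starRingEnd ℂ (inn G p q) := by
  unfold inn
  rw [← integral_conj]
  congr 1
  ext z
  rw [map_mul, Complex.conj_conj, mul_comm]

theorem inn_self (p : ℂ[X]) : inn G p p = ((∫ z in G, ‖p.eval z‖ ^ 2 : ℝ) : ℂ) := by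
  unfold inn
  rw [← integral_complex_ofReal]
  congr 1
  ext z
  rw [Complex.mul_conj, Complex.normSq_eq_norm_sq]

/-- an orthonormal sequence with `deg p m = m` -/
structure IsON (G : Set ℂ) (p : ℕ → ℂ[X]) : Prop where
  deg : ∀ m, (p m).natDegree = m
  on : ∀ m n, inn G (p m) (p n) = if m = n then 1 else 0

namespace IsON

variable {p : ℕ → ℂ[X]} (hp : IsON G p)

include hp

theorem ne_zero (m : ℕ) : p m ≠ 0 := by
  intro h0
  have := hp.on m m
  rw [h0, if_pos rfl] at this
  simp [inn] at this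

theorem lead_ne (m : ℕ) : (p m).leadingCoeff ≠ 0 := leadingCoeff_ne_zero.2 (hp.ne_zero m)

theorem orth (h : Body G) (n : ℕ) : ∀ m ≤ n, ∀ q : ℂ[X], q.degree < m → inn G q (p n) = 0 := by
  intro m
  induction m with
  | zero =>
    intro _ q hq
    have : q = 0 := by
      rw [← degree_eq_bot]
      exact Nat.WithBot.lt_zero_iff.1 (by simpa using hq)
    rw [this]
    simp [inn]
  | succ m ih =>
    intro hm q hq
    set a : ℂ := q.coeff m / (p m).leadingCoeff with ha
    have h1 : (q - C a * p m).degree < m := by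
      rw [degree_lt_iff_coeff_zero]
      intro k hk
      rcases hk.eq_or_lt with rfl | hk'
      · rw [coeff_sub, coeff_C_mul]
        have h2 : (p m).coeff m = (p m).leadingCoeff := by
          rw [leadingCoeff, hp.deg]
        rw [h2, ha, div_mul_cancel₀ _ (hp.lead_ne m), sub_self]
      · rw [coeff_sub, coeff_C_mul]
        have h2 : (p m).coeff k = 0 := coeff_eq_zero_of_natDegree_lt (by rw [hp.deg]; exact hk')
        have h3 : q.coeff k = 0 := by
          apply (degree_lt_iff_coeff_zero q (m + 1)).1 (by exact_mod_cast hq)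
          exact hk'
        rw [h2, h3, mul_zero, sub_zero]
    have h2 := ih (by omega) _ h1
    rw [inn_sub_left h, inn_smul_left, hp.on, if_neg (by omega), mul_zero, sub_zero] at h2
    exact h2

/-- extremality of the monic orthogonal polynomials -/
theorem extremal (h : Body G) (n : ℕ) (Q : ℂ[X]) (hQ : Q.Monic) (hQn : Q.natDegree = n) :
    (‖(p n).leadingCoeff‖ ^ 2)⁻¹ ≤ ∫ z in G, ‖Q.eval z‖ ^ 2 := by
  set κ : ℂ := (p n).leadingCoeff with hκ
  have hκ0 : κ ≠ 0 := hp.lead_ne n
  set D : ℂ[X] := Q - C κ⁻¹ * p n with hD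
  have h1 : D.degree < n := by
    rw [degree_lt_iff_coeff_zero]
    intro k hk
    rcases hk.eq_or_lt with rfl | hk'
    · rw [hD, coeff_sub, coeff_C_mul]
      have h2 : (p n).coeff n = κ := by rw [hκ, leadingCoeff, hp.deg]
      have h3 : Q.coeff n = 1 := by rw [← hQn]; exact hQ.coeff_natDegree
      rw [h2, h3, inv_mul_cancel₀ hκ0, sub_self]
    · rw [hD, coeff_sub, coeff_C_mul]
      have h2 : (p n).coeff k = 0 := coeff_eq_zero_of_natDegree_lt (by rw [hp.deg]; exact hk')
      have h3 : Q.coeff k = 0 := coeff_eq_zero_of_natDegree_lt (by rw [hQn]; exact hk')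
      rw [h2, h3, mul_zero, sub_zero]
  have h2 : inn G D (p n) = 0 := hp.orth h n n le_rfl D h1
  have h3 : inn G Q (p n) = κ⁻¹ := by
    rw [hD, inn_sub_left h, inn_smul_left, hp.on, if_pos rfl, mul_one] at h2
    linear_combination h2
  have h4 : inn G D D = inn G Q Q - ((‖κ‖ ^ 2)⁻¹ : ℝ) := by
    have e1 : inn G D D = inn G D Q := by
      rw [inn_conj Q D, inn_conj D D]
      congr 1
      have e2 : inn G (Q - C κ⁻¹ * p n) D = inn G Q D := by
        rw [inn_sub_left h, inn_smul_left, inn_conj D (p n), h2]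
        simp
      exact e2
    rw [e1, hD, inn_sub_left h, inn_smul_left, inn_conj Q (p n), h3]
    congr 1
    rw [map_inv₀, ← mul_inv, Complex.mul_conj, Complex.normSq_eq_norm_sq]
    push_cast
    rfl
  rw [inn_self, inn_self] at h4
  have h5 : ∫ z in G, ‖D.eval z‖ ^ 2 = (∫ z in G, ‖Q.eval z‖ ^ 2) - (‖κ‖ ^ 2)⁻¹ := by
    exact_mod_cast h4
  have h6 : 0 ≤ ∫ z in G, ‖D.eval z‖ ^ 2 := integral_nonneg fun z => by positivity
  linarith

end IsON

/-- growth of polynomials with small Bergman norm outside the unit disc -/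
theorem log_bound (h : Body G) (e : IsExt G φ c) {ε : ℝ} (hε : 0 < ε) {r : ℝ} (hr0 : 0 < r)
    (hr1 : r < 1) :
    ∃ B : ℝ, ∀ᶠ n : ℕ in atTop, ∀ P : ℂ[X], P.natDegree ≤ n →
      (∀ Q : ℂ[X], Q.Monic → Q.natDegree = n →
        ∫ z in G, ‖P.eval z‖ ^ 2 ≤ ∫ z in G, ‖Q.eval z‖ ^ 2) →
      ∀ z : ℂ, 1 < ‖z‖ → P.eval z ≠ 0 →
        Real.log ‖P.eval z‖ ≤ B + n * (Real.log c + ε) + n * Real.log ‖φ (z / r)‖ := by
  set ρ : ℝ := (1 + r) / 2 with hρ
  have hrρ : r < ρ := by rw [hρ]; linarith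
  have hρ1 : ρ < 1 := by rw [hρ]; linarith
  obtain ⟨C', hC', hsup⟩ := sup_le h (by linarith : (0 : ℝ) ≤ ρ) hρ1
  set V : ℝ := volume.real G with hV
  have hV0 : 0 ≤ V := measureReal_nonneg
  refine ⟨Real.log (Real.sqrt (C' * (V + 1))), ?_⟩
  filter_upwards [exists_monic h e hε] with n hn P hPn hPmin z hz hPz
  obtain ⟨Q, hQm, hQn, hQb⟩ := hn
  set T : ℝ := Real.exp (n * (Real.log c + ε)) with hT
  have hT0 : 0 < T := Real.exp_pos _
  have h1 : ∫ z in G, ‖Q.eval z‖ ^ 2 ≤ (V + 1) * T ^ 2 := by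
    have hfin : volume G < ⊤ := (measure_mono subset_closure).trans_lt
      h.isCompact_closure.measure_lt_top
    have h2 : ‖∫ z in G, ‖Q.eval z‖ ^ 2‖ ≤ T ^ 2 * volume.real G := by
      apply norm_setIntegral_le_of_norm_le_const hfin
      intro z hz
      rw [Real.norm_of_nonneg (by positivity)]
      have := hQb z (subset_closure hz)
      gcongr
    have h3 := (le_abs_self _).trans h2
    nlinarith [sq_nonneg T]
  have hCV : 0 < C' * (V + 1) := by positivity
  set M : ℝ := Real.sqrt (C' * (V + 1)) * T with hM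
  have hM0 : 0 < M := mul_pos (Real.sqrt_pos.2 hCV) hT0
  have hPM : ∀ w ∈ closure G, ‖P.eval ((ρ : ℂ) * w)‖ ≤ M := by
    intro w hw
    have h2 := hsup P w hw
    have h3 : ‖P.eval ((ρ : ℂ) * w)‖ ^ 2 ≤ M ^ 2 := by
      calc ‖P.eval ((ρ : ℂ) * w)‖ ^ 2 ≤ C' * ∫ w in G, ‖P.eval w‖ ^ 2 := h2
        _ ≤ C' * ((V + 1) * T ^ 2) := by
            apply mul_le_mul_of_nonneg_left _ hC'.le
            exact (hPmin Q hQm hQn).trans h1
        _ = M ^ 2 := by
            rw [hM, mul_pow, Real.sq_sqrt hCV.le]; ring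
    exact (pow_le_pow_iff_left₀ (norm_nonneg _) hM0.le (by norm_num)).1 h3
  have hbw := bernstein_walsh h e hr0 hrρ hρ1.le P hPn hPM hz
  have hzr : z / r ∉ closure G := by
    apply h.not_mem
    rw [norm_div, Complex.norm_real, Real.norm_of_nonneg hr0.le, lt_div_iff₀ hr0, one_mul]
    linarith
  have hφ : 0 < ‖φ (z / r)‖ := norm_pos_iff.2 (e.ne_zero hzr)
  have h4 := Real.log_le_log (norm_pos_iff.2 hPz) hbw
  rw [Real.log_mul hM0.ne' (pow_pos hφ n).ne', Real.log_pow, hM,
    Real.log_mul (Real.sqrt_pos.2 hCV).ne' hT0.ne', hT, Real.log_exp] at h4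
  exact h4

end Pool.Agent.Helper31.Berg
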