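import Mathlib

set_option autoImplicit false

open Set Filter Topology Metric

namespace Pool.Agent.Helper31.Berg

/-- an open convex set containing the origin and lying in the closed unit disc -/
structure Body (G : Set ℂ) : Prop where
  isOpen : IsOpen G
  convex : Convex ℝ G
  zero_mem : (0 : ℂ) ∈ G
  sub : closure G ⊆ closedBall 0 1

namespace Body

variable {G : Set ℂ} (h : Body G)

include h

theorem smul_mem {z : ℂ} (hz : z ∈ closure G) {s : ℝ} (h0 : 0 ≤ s) (h1 : s < 1) :
    (s : ℂ) * z ∈ G := by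
  have h2 := h.convex.combo_closure_interior_mem_interior hz
    (by rw [h.isOpen.interior_eq]; exact h.zero_mem) h0 (sub_pos.2 h1) (by ring)
  rw [smul_zero, add_zero, h.isOpen.interior_eq, Complex.real_smul] at h2
  exact h2

theorem subset_ball : G ⊆ closedBall 0 1 := subset_closure.trans h.sub

theorem isCompact_closure : IsCompact (closure G) :=
  (isCompact_closedBall (0 : ℂ) 1).of_isClosed_subset isClosed_closure h.sub

theorem not_mem {z : ℂ} (hz : 1 < ‖z‖) : z ∉ closure G := fun hm => by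
  have := h.sub hm
  rw [mem_closedBall_zero_iff] at this
  linarith

/-- room around the shrunk set -/
theorem exists_room {ρ : ℝ} (h0 : 0 ≤ ρ) (h1 : ρ < 1) :
    ∃ δ : ℝ, 0 < δ ∧ ∀ z ∈ closure G, ball ((ρ : ℂ) * z) δ ⊆ G := by
  obtain ⟨η, hη, hs⟩ := Metric.isOpen_iff.1 h.isOpen 0 h.zero_mem
  refine ⟨(1 - ρ) * η, mul_pos (by linarith) hη, fun z hz w hw => ?_⟩
  have h1' : (0 : ℝ) < 1 - ρ := by linarith
  have h1c : ((1 - ρ : ℝ) : ℂ) ≠ 0 := by exact_mod_cast h1'.ne'
  have hv : (w - ρ * z) / ((1 - ρ : ℝ) : ℂ) ∈ G := by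
    apply hs
    rw [mem_ball_zero_iff, norm_div, Complex.norm_real, Real.norm_of_nonneg h1'.le, div_lt_iff₀ h1']
    rw [mem_ball, dist_eq_norm] at hw
    linarith
  have h2 := h.convex.combo_closure_interior_mem_interior hz
    (by rw [h.isOpen.interior_eq]; exact hv) h0 h1' (by ring)
  rw [h.isOpen.interior_eq, Complex.real_smul, Complex.real_smul,
    mul_div_cancel₀ _ h1c] at h2
  convert h2 using 1
  ring

end Body

/-- the inverted exterior -/
def W (G : Set ℂ) : Set ℂ := {u | u⁻¹ ∈ closure G → u = 0}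

variable {G : Set ℂ}

theorem zero_mem_W : (0 : ℂ) ∈ W G := fun _ => rfl

theorem mem_W_of_ne {u : ℂ} (hu : u ≠ 0) : u ∈ W G ↔ u⁻¹ ∉ closure G :=
  ⟨fun h h' => hu (h h'), fun h h' => absurd h' h⟩

theorem ball_subset_W (h : Body G) : ball (0 : ℂ) 1 ⊆ W G := by
  intro u hu
  by_cases h0 : u = 0
  · rw [h0]; exact zero_mem_W
  rw [mem_W_of_ne h0]
  apply h.not_mem
  rw [norm_inv]
  rw [mem_ball_zero_iff] at hu
  exact (one_lt_inv₀ (norm_pos_iff.2 h0)).2 hu

theorem isOpen_W (h : Body G) : IsOpen (W G) := by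
  rw [isOpen_iff_mem_nhds]
  intro u hu
  by_cases h0 : u = 0
  · rw [h0]
    exact mem_of_superset (ball_mem_nhds 0 one_pos) (ball_subset_W h)
  rw [mem_W_of_ne h0] at hu
  have h1 : ∀ᶠ v in 𝓝 u, v⁻¹ ∉ closure G :=
    (continuousAt_inv₀ h0).eventually (isClosed_closure.isOpen_compl.mem_nhds hu)
  filter_upwards [h1] with v hv h2
  exact absurd h2 hv

theorem isBounded_W (h : Body G) : Bornology.IsBounded (W G) := by
  obtain ⟨η, hη, hs⟩ := Metric.isOpen_iff.1 h.isOpen 0 h.zero_mem
  refine (isBounded_closedBall (x := (0 : ℂ)) (r := 1 / η)).subset fun u hu => ?_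
  rw [mem_closedBall_zero_iff]
  by_contra hcon
  push Not at hcon
  have h0 : u ≠ 0 := by
    rintro rfl
    rw [norm_zero] at hcon
    have : 0 < 1 / η := by positivity
    linarith
  rw [mem_W_of_ne h0] at hu
  apply hu
  apply subset_closure
  apply hs
  rw [mem_ball_zero_iff, norm_inv, inv_lt_comm₀ (norm_pos_iff.2 h0) hη]
  rwa [one_div] at hcon

/-- closed version of `W` -/
theorem closure_W_subset (h : Body G) : closure (W G) ⊆ {u | u⁻¹ ∈ G → u = 0} := by
  have hcl : IsClosed {u : ℂ | u⁻¹ ∈ G → u = 0} := by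
    rw [← isOpen_compl_iff, isOpen_iff_mem_nhds]
    intro u hu
    rw [mem_compl_iff, mem_ofPred_eq, Classical.not_imp] at hu
    have h1 : ∀ᶠ v in 𝓝 u, v⁻¹ ∈ G :=
      (continuousAt_inv₀ hu.2).eventually (h.isOpen.mem_nhds hu.1)
    filter_upwards [h1, isOpen_ne.mem_nhds hu.2] with v hv hv2 h2
    exact hv2 (h2 hv)
  refine closure_minimal (fun u hu h1 => hu (subset_closure h1)) hcl

theorem smul_closure_W (h : Body G) {s : ℝ} (h0 : 0 ≤ s) (h1 : s < 1) {u : ℂ}
    (hu : u ∈ closure (W G)) : (s : ℂ) * u ∈ W G := by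
  rcases h0.eq_or_lt with rfl | hs
  · simp only [Complex.ofReal_zero, zero_mul]; exact zero_mem_W
  by_cases hu0 : u = 0
  · rw [hu0, mul_zero]; exact zero_mem_W
  have hsc : (s : ℂ) ≠ 0 := by exact_mod_cast hs.ne'
  rw [mem_W_of_ne (mul_ne_zero hsc hu0)]
  intro hm
  have h2 := h.smul_mem hm hs.le h1
  rw [mul_inv, ← mul_assoc, mul_inv_cancel₀ hsc, one_mul] at h2
  exact hu0 (closure_W_subset h hu h2)

theorem starConvex_W (h : Body G) : StarConvex ℝ 0 (W G) := by
  intro u hu a b ha hb hab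
  rw [smul_zero, zero_add, Complex.real_smul]
  rcases (show b ≤ 1 by linarith).eq_or_lt with rfl | hb1
  · simpa using hu
  · exact smul_closure_W h hb hb1 (subset_closure hu)

theorem isSimplyConnected_W (h : Body G) : IsSimplyConnected (W G) := by
  have : ContractibleSpace (W G) := (starConvex_W h).contractibleSpace ⟨0, zero_mem_W⟩
  exact (inferInstance : SimplyConnectedSpace (W G))

end Pool.Agent.Helper31.Berg
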