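import Pool.Agent.Helper31.Berg.Geom

set_option autoImplicit false

open Set Filter Topology Metric

namespace Pool.Agent.Helper31.Berg

/-- the regular `N`-gon -/
def Gon (N : ℕ) : Set ℂ := interior (convexHull ℝ {z : ℂ | z ^ N = 1})

theorem half_ball {N : ℕ} (hN : 3 ≤ N) :
    ball (0 : ℂ) (1 / 2) ⊆ convexHull ℝ {z : ℂ | z ^ N = 1} := by
  intro z hz
  rw [mem_ball_zero_iff] at hz
  have hN0 : N ≠ 0 := by omega
  have hNr : (0 : ℝ) < N := by exact_mod_cast Nat.pos_of_ne_zero hN0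
  have hNc : (N : ℂ) ≠ 0 := by exact_mod_cast hN0
  set ζ : ℂ := Complex.exp (2 * Real.pi * Complex.I / N) with hζ
  have hp : IsPrimitiveRoot ζ N := Complex.isPrimitiveRoot_exp N hN0
  have hn : ‖ζ‖ = 1 := hp.norm'_eq_one hN0
  have s1 : ∑ k ∈ Finset.range N, ζ ^ k = 0 := hp.geom_sum_eq_zero (by omega)
  have s2 : ∑ k ∈ Finset.range N, (ζ ^ 2) ^ k = 0 := by
    have h2 : ζ ^ 2 ≠ 1 := fun h => by
      have := (hp.pow_eq_one_iff_dvd 2).1 h
      have := Nat.le_of_dvd (by norm_num) this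
      omega
    rw [geom_sum_eq h2, ← pow_mul, mul_comm 2 N, pow_mul, hp.pow_eq_one, one_pow, sub_self,
      zero_div]
  have hc : ∀ k : ℕ, (starRingEnd ℂ) (ζ ^ k) * ζ ^ k = 1 := fun k => by
    rw [mul_comm, Complex.mul_conj, Complex.normSq_eq_norm_sq, norm_pow, hn]
    norm_num
  set lam : ℕ → ℝ := fun k => (1 + 2 * (z * (starRingEnd ℂ) (ζ ^ k)).re) / N with hlam
  have hlamc : ∀ k, (lam k : ℂ) =
      (1 + (z * (starRingEnd ℂ) (ζ ^ k) + (starRingEnd ℂ) z * ζ ^ k)) / N := by
    intro k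
    have h3 : ((2 * (z * (starRingEnd ℂ) (ζ ^ k)).re : ℝ) : ℂ) =
        z * (starRingEnd ℂ) (ζ ^ k) + (starRingEnd ℂ) z * ζ ^ k := by
      have := Complex.add_conj (z * (starRingEnd ℂ) (ζ ^ k))
      rw [map_mul, Complex.conj_conj] at this
      exact this.symm
    rw [← h3, hlam]
    push_cast
    rfl
  have hnn : ∀ k, 0 ≤ lam k := by
    intro k
    have h1 : |(z * (starRingEnd ℂ) (ζ ^ k)).re| ≤ 1 / 2 := by
      refine (Complex.abs_re_le_norm _).trans ?_
      rw [norm_mul, RCLike.norm_conj, norm_pow, hn, one_pow, mul_one]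
      exact hz.le
    have h2 := (abs_le.1 h1).1
    apply div_nonneg _ hNr.le
    linarith
  have sc : ∑ k ∈ Finset.range N, (starRingEnd ℂ) (ζ ^ k) = 0 := by
    rw [← map_sum, s1, map_zero]
  have hsum : ∑ k ∈ Finset.range N, lam k = 1 := by
    have h1 : ((∑ k ∈ Finset.range N, lam k : ℝ) : ℂ) = 1 := by
      push_cast
      simp_rw [hlamc]
      rw [← Finset.sum_div, Finset.sum_add_distrib, Finset.sum_add_distrib, ← Finset.mul_sum,
        ← Finset.mul_sum, s1, sc]
      simp [hNc]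
    exact_mod_cast h1
  have hz2 : ∑ k ∈ Finset.range N, lam k • ζ ^ k = z := by
    simp_rw [Complex.real_smul, hlamc]
    have h1 : ∀ k, (1 + (z * (starRingEnd ℂ) (ζ ^ k) + (starRingEnd ℂ) z * ζ ^ k)) / N * ζ ^ k =
        (ζ ^ k + (z + (starRingEnd ℂ) z * (ζ ^ 2) ^ k)) / N := by
      intro k
      have h2 := hc k
      have h3 : (ζ ^ 2) ^ k = ζ ^ k * ζ ^ k := by ring
      rw [h3, div_mul_eq_mul_div]
      congr 1
      linear_combination z * h2
    simp_rw [h1]
    rw [← Finset.sum_div, Finset.sum_add_distrib, Finset.sum_add_distrib, ← Finset.mul_sum,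
      s1, s2]
    simp [hNc]
  rw [← hz2]
  refine (convex_convexHull ℝ _).sum_mem (fun k _ => hnn k) hsum fun k _ => ?_
  apply subset_convexHull
  show (ζ ^ k) ^ N = 1
  rw [← pow_mul, mul_comm, pow_mul, hp.pow_eq_one, one_pow]

theorem body_gon {N : ℕ} (hN : 3 ≤ N) : Body (Gon N) where
  isOpen := isOpen_interior
  convex := (convex_convexHull ℝ _).interior
  zero_mem := interior_mono (half_ball hN) (by
    rw [isOpen_ball.interior_eq]; exact mem_ball_self (by norm_num))
  sub := by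
    refine closure_minimal (interior_subset.trans (convexHull_min ?_ (convex_closedBall 0 1)))
      isClosed_closedBall
    intro z hz
    rw [mem_closedBall_zero_iff]
    have h1 : ‖z‖ ^ N = 1 := by rw [← norm_pow, show z ^ N = 1 from hz, norm_one]
    exact (pow_le_one_iff_of_nonneg (norm_nonneg _) (by omega)).1 h1.le

end Pool.Agent.Helper31.Berg
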