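import Mathlib

set_option autoImplicit false

open Set Filter Topology Metric Real MeasureTheory

namespace Pool.Agent.Helper31.Berg

/-- a power series with bounded coefficients which vanishes near `0` has zero coefficients -/
theorem coeff_zero (d : ℕ → ℝ) (hd : ∀ m, |d m| ≤ 1)
    (h : ∀ t : ℝ, 0 < t → t ≤ 1 / 2 → HasSum (fun m : ℕ => d m * t ^ (m + 1)) 0) (m : ℕ) :
    d m = 0 := by
  induction m using Nat.strong_induction_on with
  | _ m ih =>
    have key : ∀ t : ℝ, 0 < t → t ≤ 1 / 2 → |d m| ≤ 2 * t := by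
      intro t h0 h1
      have h2 := (hasSum_nat_add_iff (f := fun m : ℕ => d m * t ^ (m + 1)) (m + 1)
        (g := -(d m * t ^ (m + 1)))).2 (by
          rw [Finset.sum_range_succ, Finset.sum_eq_zero (fun i hi => by
            rw [ih i (Finset.mem_range.1 hi), zero_mul]), zero_add, neg_add_cancel]
          exact h t h0 h1)
      have hg : HasSum (fun i : ℕ => t ^ (m + 2) * t ^ i) (t ^ (m + 2) * (1 - t)⁻¹) :=
        (hasSum_geometric_of_lt_one h0.le (by linarith)).mul_left _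
      have h3 : |-(d m * t ^ (m + 1))| ≤ t ^ (m + 2) * (1 - t)⁻¹ := by
        rw [← Real.norm_eq_abs, ← h2.tsum_eq, ← hg.tsum_eq]
        apply tsum_of_norm_bounded hg.summable.hasSum
        intro i
        rw [norm_mul, norm_pow, Real.norm_of_nonneg h0.le, Real.norm_eq_abs, ← pow_add,
          show i + (m + 1) + 1 = m + 2 + i by ring]
        have := hd (i + (m + 1))
        calc |d (i + (m + 1))| * t ^ (m + 2 + i) ≤ 1 * t ^ (m + 2 + i) := by gcongr
          _ = t ^ (m + 2 + i) := one_mul _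
      rw [abs_neg, abs_mul, abs_of_pos (pow_pos h0 _)] at h3
      have h4 : (1 - t)⁻¹ ≤ 2 := by
        rw [inv_le_comm₀ (by linarith) (by norm_num)]
        linarith
      have h5 : |d m| * t ^ (m + 1) ≤ 2 * t * t ^ (m + 1) := by
        calc |d m| * t ^ (m + 1) ≤ t ^ (m + 2) * (1 - t)⁻¹ := h3
          _ ≤ t ^ (m + 2) * 2 := by gcongr
          _ = 2 * t * t ^ (m + 1) := by ring
      exact le_of_mul_le_mul_right h5 (pow_pos h0 _)
    by_contra hne
    have hpos : 0 < |d m| := abs_pos.2 hne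
    have h6 := key (min (1 / 2) (|d m| / 4)) (by positivity) (min_le_left _ _)
    have h7 : min (1 / 2) (|d m| / 4) ≤ |d m| / 4 := min_le_right _ _
    linarith

variable {μ ν : Measure ℝ}

theorem integrable_of_cont [IsProbabilityMeasure μ] (hμ : μ (Icc 0 1)ᶜ = 0) {f : ℝ → ℝ}
    (hf : ContinuousOn f (Icc 0 1)) : Integrable f μ := by
  have h1 : μ.restrict (Icc 0 1) = μ := by
    rw [Measure.restrict_eq_self_of_ae_mem]
    exact hμ
  rw [← h1]
  exact hf.integrableOn_compact isCompact_Icc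

theorem hasSum_log [IsProbabilityMeasure μ] (hμ : μ (Icc 0 1)ᶜ = 0) {t : ℝ} (h0 : 0 < t)
    (h1 : t < 1) :
    HasSum (fun m : ℕ => (∫ x, x ^ (m + 1) ∂μ) / (m + 1) * t ^ (m + 1))
      (- ∫ x, Real.log (1 - t * x) ∂μ) := by
  have hae : ∀ᵐ x ∂μ, x ∈ Icc (0 : ℝ) 1 := hμ
  set F : ℕ → ℝ → ℝ := fun m x => (t * x) ^ (m + 1) / (m + 1) with hF
  have hFint : ∀ m, Integrable (F m) μ := fun m =>
    integrable_of_cont hμ (by simp only [hF]; fun_prop)
  have hFnorm : ∀ m, ∫ x, ‖F m x‖ ∂μ ≤ t ^ (m + 1) := by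
    intro m
    have hb : ∀ᵐ x ∂μ, ‖F m x‖ ≤ t ^ (m + 1) := by
      filter_upwards [hae] with x hx
      simp only [hF]
      rw [norm_div, norm_pow, norm_mul, Real.norm_of_nonneg h0.le, Real.norm_of_nonneg hx.1,
        mul_pow, Real.norm_of_nonneg (by positivity : (0 : ℝ) ≤ m + 1),
        div_le_iff₀ (by positivity)]
      have h2 : x ^ (m + 1) ≤ 1 := pow_le_one₀ hx.1 hx.2
      have h3 : (1 : ℝ) ≤ m + 1 := by
        have : (0 : ℝ) ≤ m := Nat.cast_nonneg m
        linarith
      have h4 : 0 < t ^ (m + 1) := pow_pos h0 _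
      exact mul_le_mul_of_nonneg_left (h2.trans h3) h4.le
    calc ∫ x, ‖F m x‖ ∂μ ≤ ∫ _, t ^ (m + 1) ∂μ :=
          integral_mono_ae (hFint m).norm (integrable_const _) hb
      _ = t ^ (m + 1) := by simp
  have hsum : Summable fun m => ∫ x, ‖F m x‖ ∂μ := by
    refine Summable.of_nonneg_of_le (fun m => integral_nonneg fun x => norm_nonneg _) hFnorm ?_
    have := (summable_geometric_of_lt_one h0.le h1).mul_left t
    simpa [pow_succ, mul_comm] using this
  have h2 := hasSum_integral_of_summable_integral_norm hFint hsum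
  have h3 : ∫ x, ∑' m, F m x ∂μ = - ∫ x, Real.log (1 - t * x) ∂μ := by
    rw [← integral_neg]
    apply integral_congr_ae
    filter_upwards [hae] with x hx
    have h4 : |t * x| < 1 := by
      rw [abs_of_nonneg (mul_nonneg h0.le hx.1)]
      nlinarith [hx.1, hx.2]
    exact (Real.hasSum_pow_div_log_of_abs_lt_one h4).tsum_eq
  rw [h3] at h2
  have h5 : (fun m : ℕ => (∫ x, x ^ (m + 1) ∂μ) / (m + 1) * t ^ (m + 1)) =
      fun m => ∫ x, F m x ∂μ := by
    funext m
    simp only [hF, mul_pow]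
    rw [integral_div, integral_const_mul]
    ring
  rw [h5]
  exact h2

/-- probability measures on `[0, 1]` with the same logarithmic potential on `(1, ∞)` agree -/
theorem measure_ext [IsProbabilityMeasure μ] [IsProbabilityMeasure ν] (hμ : μ (Icc 0 1)ᶜ = 0)
    (hν : ν (Icc 0 1)ᶜ = 0)
    (h : ∀ w : ℝ, 1 < w → ∫ x, Real.log (w - x) ∂μ = ∫ x, Real.log (w - x) ∂ν) : μ = ν := by
  have haeμ : ∀ᵐ x ∂μ, x ∈ Icc (0 : ℝ) 1 := hμ
  have haeν : ∀ᵐ x ∂ν, x ∈ Icc (0 : ℝ) 1 := hν
  -- the logarithms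
  have hlog : ∀ (κ : Measure ℝ) [IsProbabilityMeasure κ], κ (Icc 0 1)ᶜ = 0 → ∀ w : ℝ, 1 < w →
      ∫ x, Real.log (w - x) ∂κ = Real.log w + ∫ x, Real.log (1 - w⁻¹ * x) ∂κ := by
    intro κ _ hκ w hw
    have hae : ∀ᵐ x ∂κ, x ∈ Icc (0 : ℝ) 1 := hκ
    have h1 : ∫ x, Real.log (w - x) ∂κ = ∫ x, (Real.log w + Real.log (1 - w⁻¹ * x)) ∂κ := by
      apply integral_congr_ae
      filter_upwards [hae] with x hx
      have hw0 : 0 < w := by linarith
      have h2 : 0 < 1 - w⁻¹ * x := by
        have : w⁻¹ * x < 1 := by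
          rw [inv_mul_eq_div, div_lt_one hw0]; linarith [hx.2]
        linarith
      rw [← Real.log_mul hw0.ne' h2.ne']
      congr 1
      field_simp
    rw [h1, integral_add (integrable_const _) (integrable_of_cont hκ ?_)]
    · simp
    · intro x hx
      have hw0 : 0 < w := by linarith
      have h2 : 1 - w⁻¹ * x ≠ 0 := by
        have : w⁻¹ * x < 1 := by
          rw [inv_mul_eq_div, div_lt_one hw0]; linarith [hx.2]
        intro h3
        linarith
      exact ((continuousAt_const.sub (continuousAt_const.mul continuousAt_id)).log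
        h2).continuousWithinAt
  have hlog2 : ∀ t : ℝ, 0 < t → t < 1 →
      ∫ x, Real.log (1 - t * x) ∂μ = ∫ x, Real.log (1 - t * x) ∂ν := by
    intro t h0 h1
    have h2 := h t⁻¹ ((one_lt_inv₀ h0).2 h1)
    rw [hlog μ hμ _ ((one_lt_inv₀ h0).2 h1), hlog ν hν _ ((one_lt_inv₀ h0).2 h1), inv_inv] at h2
    linarith
  -- the moments
  have hmom01 : ∀ (κ : Measure ℝ) [IsProbabilityMeasure κ], κ (Icc 0 1)ᶜ = 0 → ∀ m : ℕ,
      0 ≤ ∫ x, x ^ (m + 1) ∂κ ∧ ∫ x, x ^ (m + 1) ∂κ ≤ 1 := by
    intro κ _ hκ m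
    have hae : ∀ᵐ x ∂κ, x ∈ Icc (0 : ℝ) 1 := hκ
    constructor
    · apply integral_nonneg_of_ae
      filter_upwards [hae] with x hx
      exact pow_nonneg hx.1 _
    · calc ∫ x, x ^ (m + 1) ∂κ ≤ ∫ _, (1 : ℝ) ∂κ := by
            apply integral_mono_ae (integrable_of_cont hκ (by fun_prop)) (integrable_const _)
            filter_upwards [hae] with x hx
            exact pow_le_one₀ hx.1 hx.2
        _ = 1 := by simp
  have hmom : ∀ m : ℕ, ∫ x, x ^ (m + 1) ∂μ = ∫ x, x ^ (m + 1) ∂ν := by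
    intro m
    have h1 := coeff_zero (fun m : ℕ => (∫ x, x ^ (m + 1) ∂μ) / (m + 1) -
      (∫ x, x ^ (m + 1) ∂ν) / (m + 1)) (fun m => by
        rw [← sub_div, abs_div, abs_of_nonneg (by positivity : (0 : ℝ) ≤ (m : ℝ) + 1),
          div_le_one (by positivity)]
        have h2 := hmom01 μ hμ m
        have h3 := hmom01 ν hν m
        have h4 : (0 : ℝ) ≤ m := Nat.cast_nonneg m
        rw [abs_le]
        constructor <;> linarith [h2.1, h2.2, h3.1, h3.2]) (fun t h0 h1 => by
        have h2 := hasSum_log hμ h0 (by linarith)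
        have h3 := hasSum_log hν h0 (by linarith)
        have h4 := h2.sub h3
        rw [hlog2 t h0 (by linarith), sub_self] at h4
        have h5 : (fun i : ℕ => ((∫ x, x ^ (i + 1) ∂μ) / (i + 1) -
            (∫ x, x ^ (i + 1) ∂ν) / (i + 1)) * t ^ (i + 1)) = fun i : ℕ =>
            (∫ x, x ^ (i + 1) ∂μ) / (i + 1) * t ^ (i + 1) -
            (∫ x, x ^ (i + 1) ∂ν) / (i + 1) * t ^ (i + 1) := by
          funext i
          ring
        rw [h5]
        exact h4) m
    have h2 : ((m : ℝ) + 1) ≠ 0 := by positivity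
    field_simp at h1
    linarith
  have hmom' : ∀ m : ℕ, ∫ x, x ^ m ∂μ = ∫ x, x ^ m ∂ν := by
    intro m
    rcases m with _ | m
    · simp
    · exact hmom m
  have hpoly : ∀ p : Polynomial ℝ, ∫ x, p.eval x ∂μ = ∫ x, p.eval x ∂ν := by
    intro p
    simp_rw [Polynomial.eval_eq_sum_range]
    rw [integral_finsetSum _ fun i _ => integrable_of_cont hμ (by fun_prop),
      integral_finsetSum _ fun i _ => integrable_of_cont hν (by fun_prop)]
    apply Finset.sum_congr rfl
    intro i _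
    rw [integral_const_mul, integral_const_mul, hmom']
  apply ext_of_forall_integral_eq_of_IsFiniteMeasure
  intro f
  apply eq_of_forall_dist_le
  intro ε hε
  obtain ⟨p, hp⟩ := exists_polynomial_near_of_continuousOn 0 1 (fun x => f x)
    f.continuous.continuousOn (ε / 2) (by positivity)
  have hone : ∀ (κ : Measure ℝ) [IsProbabilityMeasure κ], κ (Icc 0 1)ᶜ = 0 →
      |∫ x, f x ∂κ - ∫ x, p.eval x ∂κ| ≤ ε / 2 := by
    intro κ _ hκ
    have hae : ∀ᵐ x ∂κ, x ∈ Icc (0 : ℝ) 1 := hκ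
    rw [← integral_sub (f.integrable κ) (integrable_of_cont hκ p.continuous.continuousOn),
      ← Real.norm_eq_abs]
    have := norm_integral_le_of_norm_le_const (μ := κ) (f := fun x => f x - p.eval x)
      (C := ε / 2) (by
        filter_upwards [hae] with x hx
        rw [Real.norm_eq_abs, abs_sub_comm]
        exact (hp x hx).le)
    simpa using this
  have h1 := hone μ hμ
  have h2 := hone ν hν
  rw [hpoly p] at h1
  rw [Real.dist_eq]
  have h3 := abs_sub_abs_le_abs_sub (∫ x, f x ∂μ) (∫ x, f x ∂ν)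
  rw [abs_le] at h1 h2 ⊢
  constructor <;> linarith [h1.1, h1.2, h2.1, h2.2]

end Pool.Agent.Helper31.Berg
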