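import Pool.Agent.Helper31.Berg.Ext
import Pool.Agent.Helper31.Berg.Meas

set_option autoImplicit false

open Set Filter Topology Metric Real MeasureTheory

namespace Pool.Agent.Helper31.Berg

/-- the unit interval -/
abbrev XX : Type := Icc (0 : ℝ) 1

/-- the empirical measures -/
noncomputable def empM (τ : ℕ → ℕ → XX) (j : ℕ) : Measure XX :=
  if j = 0 then Measure.dirac ⟨0, by simp⟩ else
    ((j : ENNReal)⁻¹) • ∑ ν ∈ Finset.range j, Measure.dirac (τ j ν)

theorem empM_prob (τ : ℕ → ℕ → XX) (j : ℕ) : IsProbabilityMeasure (empM τ j) := by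
  unfold empM
  split_ifs with h
  · infer_instance
  · constructor
    rw [Measure.smul_apply, Measure.finsetSum_apply]
    simp only [measure_univ, Finset.sum_const, Finset.card_range, smul_eq_mul, nsmul_eq_mul,
      mul_one]
    exact ENNReal.inv_mul_cancel (by exact_mod_cast h) (ENNReal.natCast_ne_top j)

/-- the empirical measures, bundled -/
noncomputable def emp (τ : ℕ → ℕ → XX) (j : ℕ) : ProbabilityMeasure XX :=
  ⟨empM τ j, empM_prob τ j⟩

theorem integral_emp (τ : ℕ → ℕ → XX) {j : ℕ} (hj : j ≠ 0) (f : XX → ℝ) :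
    ∫ x, f x ∂(emp τ j : Measure XX) = (j : ℝ)⁻¹ * ∑ ν ∈ Finset.range j, f (τ j ν) := by
  show ∫ x, f x ∂(empM τ j) = _
  unfold empM
  rw [if_neg hj, integral_smul_measure, integral_finsetSum_measure]
  · simp [integral_dirac]
  · intro i _
    exact integrable_dirac (by simp)

variable {G : Set ℂ} {φ : ℂ → ℂ} {c : ℝ} {N : ℕ}

theorem pow_sub_ne (hN : N ≠ 0) {z : ℂ} (hz : 1 < ‖z‖) (x : XX) : z ^ N - ((x : ℝ) : ℂ) ≠ 0 := by
  intro h0
  have h1 : z ^ N = ((x : ℝ) : ℂ) := sub_eq_zero.1 h0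
  have h2 : 1 < ‖z ^ N‖ := by
    rw [norm_pow]
    exact one_lt_pow₀ hz hN
  rw [h1, Complex.norm_real, Real.norm_of_nonneg x.2.1] at h2
  linarith [x.2.2]

theorem cont_log (hN : N ≠ 0) {z : ℂ} (hz : 1 < ‖z‖) :
    Continuous fun x : XX => Real.log ‖z ^ N - ((x : ℝ) : ℂ)‖ := by
  refine Continuous.log ?_ fun x => norm_ne_zero_iff.2 (pow_sub_ne hN hz x)
  fun_prop

theorem integrable_XX (μ : Measure XX) [IsFiniteMeasure μ] {f : XX → ℝ} (hf : Continuous f) :
    Integrable f μ := hf.integrable_of_hasCompactSupport (HasCompactSupport.of_compactSpace f)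

/-- the mean of `log |z ^ N - x|` over a circle -/
theorem circleAverage_pow (hN : N ≠ 0) {R : ℝ} (hR : 1 < R) (x : XX) :
    circleAverage (fun z : ℂ => Real.log ‖z ^ N - ((x : ℝ) : ℂ)‖) 0 R = N * Real.log R := by
  have hR0 : 0 < R := by linarith
  set H : ℂ → ℂ := fun u => 1 - ((x : ℝ) : ℂ) * u ^ N with hH
  have hHne : ∀ u : ℂ, ‖u‖ < 1 → H u ≠ 0 := by
    intro u hu h0
    have h1 : ((x : ℝ) : ℂ) * u ^ N = 1 := (sub_eq_zero.1 h0).symm
    have h2 : ‖((x : ℝ) : ℂ) * u ^ N‖ < 1 := by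
      rw [norm_mul, Complex.norm_real, Real.norm_of_nonneg x.2.1, norm_pow]
      have h3 : ‖u‖ ^ N < 1 := pow_lt_one₀ (norm_nonneg _) hu hN
      nlinarith [x.2.1, x.2.2, pow_nonneg (norm_nonneg u) N]
    rw [h1, norm_one] at h2
    exact lt_irrefl _ h2
  have hHd : Differentiable ℂ H := by
    simp only [hH]
    fun_prop
  have hmem : ∀ u ∈ closedBall (0 : ℂ) |R⁻¹|, ‖u‖ < 1 := by
    intro u hu
    rw [mem_closedBall_zero_iff, abs_of_pos (inv_pos.2 hR0)] at hu
    exact lt_of_le_of_lt hu (inv_lt_one_of_one_lt₀ hR)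
  have hmean := AnalyticOnNhd.circleAverage_log_norm_of_ne_zero (c := 0) (R := R⁻¹) (g := H)
    (fun u _ => hHd.analyticAt u) (fun u hu => hHne u (hmem u hu))
  have hH0 : H 0 = 1 := by simp [hH, hN]
  rw [hH0, norm_one, Real.log_one] at hmean
  have h1 : circleAverage (fun z => Real.log ‖H z⁻¹‖) 0 R = 0 := by
    rw [circleAverage_eq_circleAverage_zero_one]
    have h2 := circleAverage_zero_one_congr_inv (f := fun z : ℂ => Real.log ‖H ((R : ℂ)⁻¹ * z)‖)
    have h3 : circleAverage (fun z => Real.log ‖H z‖) 0 R⁻¹ =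
        circleAverage (fun z : ℂ => Real.log ‖H ((R : ℂ)⁻¹ * z)‖) 0 1 := by
      rw [circleAverage_eq_circleAverage_zero_one]
      simp
    rw [← hmean, h3, ← h2]
    congr 1
    ext z
    simp [mul_comm]
  have h4 : circleAverage (fun z : ℂ => Real.log ‖z ^ N - ((x : ℝ) : ℂ)‖) 0 R =
      circleAverage (fun z => N * Real.log R + Real.log ‖H z⁻¹‖) 0 R := by
    apply circleAverage_congr_sphere
    intro z hz
    rw [mem_sphere_zero_iff_norm, abs_of_pos hR0] at hz
    have hz0 : z ≠ 0 := by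
      rw [← norm_pos_iff, hz]; exact hR0
    have h5 : z ^ N - ((x : ℝ) : ℂ) = z ^ N * H z⁻¹ := by
      simp only [hH]
      rw [mul_sub, mul_one, inv_pow]
      have := pow_ne_zero N hz0
      field_simp
    have h6 : H z⁻¹ ≠ 0 := hHne _ (by
      rw [norm_inv, hz]; exact inv_lt_one_of_one_lt₀ hR)
    simp only
    rw [h5, norm_mul, norm_pow, hz, Real.log_mul (pow_ne_zero _ hR0.ne') (norm_ne_zero_iff.2 h6),
      Real.log_pow]
  rw [h4]
  have hci : CircleIntegrable (fun z => Real.log ‖H z⁻¹‖) 0 R := by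
    apply ContinuousOn.circleIntegrable'
    intro z hz
    rw [mem_sphere_zero_iff_norm, abs_of_pos hR0] at hz
    have hz0 : z ≠ 0 := by
      rw [← norm_pos_iff, hz]; exact hR0
    have h6 : H z⁻¹ ≠ 0 := hHne _ (by
      rw [norm_inv, hz]; exact inv_lt_one_of_one_lt₀ hR)
    have h7 : ContinuousAt (fun z => H z⁻¹) z :=
      ContinuousAt.comp (f := fun z : ℂ => z⁻¹) hHd.continuous.continuousAt (continuousAt_inv₀ hz0)
    exact (h7.norm.log (norm_ne_zero_iff.2 h6)).continuousWithinAt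
  have hcst : CircleIntegrable (fun _ : ℂ => N * Real.log R) 0 R := circleIntegrable_const _ _ _
  rw [circleAverage_fun_add hcst hci, circleAverage_const, h1, add_zero]

/-- the asymptotic upper bound for the root polynomials -/
def Bd (N k : ℕ) (φ : ℂ → ℂ) (c : ℝ) (τ : ℕ → ℕ → XX) : Prop :=
  ∀ ε : ℝ, 0 < ε → ∀ r : ℝ, 0 < r → r < 1 → ∃ B : ℝ, ∀ᶠ j : ℕ in atTop, ∀ z : ℂ, 1 < ‖z‖ →
    k * Real.log ‖z‖ + ∑ ν ∈ Finset.range j, Real.log ‖z ^ N - ((τ j ν : ℝ) : ℂ)‖ ≤
      B + ((j * N + k : ℕ) : ℝ) * (Real.log c + ε) + ((j * N + k : ℕ) : ℝ) * Real.log ‖φ (z / r)‖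

/-- the potential of a measure is the one asked for -/
def Pot (N : ℕ) (φ : ℂ → ℂ) (c : ℝ) (μ : Measure XX) : Prop :=
  ∀ z : ℂ, 1 < ‖z‖ → ∫ x, Real.log ‖z ^ N - ((x : ℝ) : ℂ)‖ ∂μ =
    N * Real.log ‖φ z‖ + N * Real.log c

theorem pot_le (hN : N ≠ 0) (h : Body G) (e : IsExt G φ c) {k : ℕ} {τ : ℕ → ℕ → XX}
    (hB : Bd N k φ c τ) {μ : ProbabilityMeasure XX} {U : Ultrafilter ℕ} (hU : (U : Filter ℕ) ≤ atTop)
    (hlim : Tendsto (emp τ) U (𝓝 μ)) {z : ℂ} (hz : 1 < ‖z‖) :
    ∫ x, Real.log ‖z ^ N - ((x : ℝ) : ℂ)‖ ∂(μ : Measure XX) ≤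
      N * Real.log ‖φ z‖ + N * Real.log c := by
  set f : XX → ℝ := fun x => Real.log ‖z ^ N - ((x : ℝ) : ℂ)‖ with hf
  have hfc : Continuous f := cont_log hN hz
  have h1 : Tendsto (fun j => ∫ x, f x ∂(emp τ j : Measure XX)) U (𝓝 (∫ x, f x ∂(μ : Measure XX))) := by
    have := (ProbabilityMeasure.tendsto_iff_forall_integral_tendsto.1 hlim)
      (BoundedContinuousFunction.mkOfCompact ⟨f, hfc⟩)
    simpa using this
  -- for fixed `ε` and `r`
  have h2 : ∀ ε : ℝ, 0 < ε → ∀ r : ℝ, 0 < r → r < 1 → ∫ x, f x ∂(μ : Measure XX) ≤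
      N * (Real.log c + ε + Real.log ‖φ (z / r)‖) := by
    intro ε hε r hr0 hr1
    obtain ⟨B, hBe⟩ := hB ε hε r hr0 hr1
    set L : ℝ := Real.log c + ε + Real.log ‖φ (z / r)‖ with hL
    have h3 : ∀ᶠ j : ℕ in (U : Filter ℕ), ∫ x, f x ∂(emp τ j : Measure XX) ≤
        (B - k * Real.log ‖z‖ + k * L) / j + N * L := by
      filter_upwards [hU hBe, hU (eventually_ne_atTop 0)] with j hj hj0
      have h4 := hj z hz
      rw [integral_emp τ hj0]
      have hjp : (0 : ℝ) < j := by exact_mod_cast Nat.pos_of_ne_zero hj0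
      rw [inv_mul_eq_div, div_le_iff₀ hjp]
      have h5 : ((B - k * Real.log ‖z‖ + k * L) / j + N * L) * j =
          B - k * Real.log ‖z‖ + k * L + N * L * j := by
        field_simp
      rw [h5]
      push_cast at h4
      simp only [hf]
      rw [hL]
      linarith
    have h6 : Tendsto (fun j : ℕ => (B - k * Real.log ‖z‖ + k * L) / (j : ℝ) + N * L) U
        (𝓝 (0 + N * L)) :=
      ((tendsto_const_div_atTop_nhds_zero_nat _).mono_left hU).add tendsto_const_nhds
    rw [zero_add] at h6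
    exact le_of_tendsto_of_tendsto h1 h6 h3
  -- the limit
  have hzK : z ∉ closure G := h.not_mem hz
  have hcont : ContinuousAt φ z :=
    (e.diff.differentiableAt (isClosed_closure.isOpen_compl.mem_nhds hzK)).continuousAt
  have h7 : Tendsto (fun m : ℕ => (1 : ℝ) / (m + 1)) atTop (𝓝 0) := tendsto_one_div_add_atTop_nhds_zero_nat
  have h8 : Tendsto (fun m : ℕ => 1 - (1 : ℝ) / (m + 1)) atTop (𝓝 1) := by
    simpa using tendsto_const_nhds.sub h7
  have h9 : Tendsto (fun m : ℕ => z / ((1 - (1 : ℝ) / (m + 1) : ℝ) : ℂ)) atTop (𝓝 z) := by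
    have h10 : Tendsto (fun m : ℕ => ((1 - (1 : ℝ) / (m + 1) : ℝ) : ℂ)) atTop (𝓝 ((1 : ℝ) : ℂ)) :=
      (Complex.continuous_ofReal.tendsto 1).comp h8
    have h11 : Tendsto (fun m : ℕ => z / ((1 - (1 : ℝ) / (m + 1) : ℝ) : ℂ)) atTop
        (𝓝 (z / ((1 : ℝ) : ℂ))) := (tendsto_const_nhds (x := z)).div h10 (by norm_num)
    rwa [Complex.ofReal_one, div_one] at h11
  have h12 : Tendsto (fun m : ℕ => N * (Real.log c + (1 : ℝ) / (m + 1) +
      Real.log ‖φ (z / ((1 - (1 : ℝ) / (m + 1) : ℝ) : ℂ))‖)) atTop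
      (𝓝 (N * (Real.log c + 0 + Real.log ‖φ z‖))) := by
    refine Tendsto.const_mul _ ((tendsto_const_nhds.add h7).add ?_)
    exact ((hcont.tendsto.comp h9).norm).log (norm_ne_zero_iff.2 (e.ne_zero hzK))
  have h13 : ∫ x, f x ∂(μ : Measure XX) ≤ N * (Real.log c + 0 + Real.log ‖φ z‖) := by
    refine ge_of_tendsto h12 ?_
    filter_upwards [eventually_gt_atTop 0] with m hm
    have hm' : (0 : ℝ) < m := by exact_mod_cast hm
    apply h2 _ (by positivity) _ _ _
    · rw [sub_pos, div_lt_one (by positivity)]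
      linarith
    · have : (0 : ℝ) < 1 / (m + 1) := by positivity
      linarith
  linarith

theorem pot_eq (hN : N ≠ 0) (h : Body G) (e : IsExt G φ c) {μ : ProbabilityMeasure XX}
    (hle : ∀ z : ℂ, 1 < ‖z‖ → ∫ x, Real.log ‖z ^ N - ((x : ℝ) : ℂ)‖ ∂(μ : Measure XX) ≤
      N * Real.log ‖φ z‖ + N * Real.log c) : Pot N φ c (μ : Measure XX) := by
  intro z₀ hz₀
  set R : ℝ := ‖z₀‖ with hR
  have hR0 : 0 < R := by linarith
  have hcmn : ∀ θ, ‖circleMap 0 R θ‖ = R := fun θ => by simp [abs_of_pos hR0]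
  have hcm1 : ∀ θ, 1 < ‖circleMap 0 R θ‖ := fun θ => by rw [hcmn]; exact hz₀
  set F : ℝ → XX → ℝ := fun θ x => Real.log ‖(circleMap 0 R θ) ^ N - ((x : ℝ) : ℂ)‖ with hF
  have hFc : Continuous F.uncurry := by
    refine Continuous.log ?_ fun p => norm_ne_zero_iff.2 (pow_sub_ne hN (hcm1 p.1) p.2)
    have : Continuous fun p : ℝ × XX => circleMap 0 R p.1 :=
      (continuous_circleMap 0 R).comp continuous_fst
    fun_prop
  set I : ℝ → ℝ := fun θ => ∫ x, F θ x ∂(μ : Measure XX) with hI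
  have hIc : Continuous I := by
    have := continuous_parametric_integral_of_continuous (μ := (μ : Measure XX)) hFc
      (isCompact_univ : IsCompact (univ : Set XX))
    simpa using this
  have hswap : ∫ θ in (0 : ℝ)..(2 * π), I θ = (2 * π) * (N * Real.log R) := by
    have h1 : ∫ θ in (0 : ℝ)..(2 * π), I θ =
        ∫ x, (∫ θ in (0 : ℝ)..(2 * π), F θ x) ∂(μ : Measure XX) := by
      apply intervalIntegral_integral_swap
      have h2 : IntegrableOn F.uncurry (Icc (0 : ℝ) (2 * π) ×ˢ (univ : Set XX))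
          ((volume : Measure ℝ).prod (μ : Measure XX)) :=
        hFc.continuousOn.integrableOn_compact (isCompact_Icc.prod isCompact_univ)
      have h3 : ((volume : Measure ℝ).restrict (uIoc 0 (2 * π))).prod (μ : Measure XX) =
          ((volume : Measure ℝ).prod (μ : Measure XX)).restrict (uIoc 0 (2 * π) ×ˢ univ) := by
        rw [← Measure.prod_restrict, Measure.restrict_univ]
      rw [h3]
      refine h2.mono_set (prod_mono ?_ subset_rfl)
      rw [uIoc_of_le (by positivity)]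
      exact Ioc_subset_Icc_self
    rw [h1]
    have h4 : ∀ x : XX, ∫ θ in (0 : ℝ)..(2 * π), F θ x = (2 * π) * (N * Real.log R) := by
      intro x
      have h5 := circleAverage_pow hN hz₀ x
      rw [circleAverage, smul_eq_mul] at h5
      rw [← h5, ← mul_assoc, mul_inv_cancel₀ (by positivity), one_mul]
    simp_rw [h4]
    simp
  set P : ℝ → ℝ := fun θ => N * Real.log ‖φ (circleMap 0 R θ)‖ + N * Real.log c with hP
  have hφc : Continuous fun θ => φ (circleMap 0 R θ) :=
    e.diff.continuousOn.comp_continuous (continuous_circleMap 0 R) fun θ => h.not_mem (hcm1 θ)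
  have hlogc : Continuous fun θ => Real.log ‖φ (circleMap 0 R θ)‖ :=
    hφc.norm.log fun θ => norm_ne_zero_iff.2 (e.ne_zero (h.not_mem (hcm1 θ)))
  have hPc : Continuous P := (continuous_const.mul hlogc).add continuous_const
  have hPint : ∫ θ in (0 : ℝ)..(2 * π), P θ = (2 * π) * (N * Real.log R) := by
    have h5 := e.circleAverage_log h hz₀
    rw [circleAverage, smul_eq_mul] at h5
    have h6 : ∫ θ in (0 : ℝ)..(2 * π), Real.log ‖φ (circleMap 0 R θ)‖ =
        (2 * π) * (Real.log R - Real.log c) := by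
      rw [← h5, ← mul_assoc, mul_inv_cancel₀ (by positivity), one_mul]
    have h7 : IntervalIntegrable (fun θ => N * Real.log ‖φ (circleMap 0 R θ)‖) volume 0 (2 * π) :=
      (continuous_const.mul hlogc).intervalIntegrable _ _
    have h8 : IntervalIntegrable (fun _ : ℝ => N * Real.log c) volume 0 (2 * π) :=
      continuous_const.intervalIntegrable _ _
    simp only [hP]
    rw [intervalIntegral.integral_add h7 h8, intervalIntegral.integral_const_mul, h6,
      intervalIntegral.integral_const, smul_eq_mul]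
    ring
  have hD : ∀ θ ∈ Icc (0 : ℝ) (2 * π), P θ - I θ ≤ 0 := by
    intro θ hθ
    by_contra hcon
    push Not at hcon
    have h7 : 0 < ∫ θ in (0 : ℝ)..(2 * π), (P θ - I θ) := by
      apply intervalIntegral.integral_pos (by positivity) (hPc.sub hIc).continuousOn
      · intro θ _
        have := hle _ (hcm1 θ)
        show 0 ≤ P θ - I θ
        simp only [hP, hI, hF]
        linarith
      · exact ⟨θ, hθ, hcon⟩
    rw [intervalIntegral.integral_sub (hPc.intervalIntegrable _ _) (hIc.intervalIntegrable _ _),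
      hPint, hswap, sub_self] at h7
    exact lt_irrefl _ h7
  -- the point
  obtain ⟨θ, hθ, hθz⟩ : ∃ θ ∈ Icc (0 : ℝ) (2 * π), circleMap 0 R θ = z₀ := by
    have h8 : z₀ ∈ sphere (0 : ℂ) |R| := by
      rw [mem_sphere_zero_iff_norm, abs_of_pos hR0]
    rw [← image_circleMap_Ioc] at h8
    obtain ⟨θ, hθ, h9⟩ := h8
    exact ⟨θ, Ioc_subset_Icc_self hθ, h9⟩
  have h10 := hD θ hθ
  simp only [hP, hI, hF, hθz] at h10
  exact le_antisymm (hle z₀ hz₀) (by linarith)

end Pool.Agent.Helper31.Berg
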